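import Mathlib

/-! Fox derivatives on a free group, with the convention `D_x(x) = [x]`,
`D_x(v w) = D_x(v) + v · D_x(w)`; values are functions on the group. -/

namespace Pool.Agent.H146FF

/-- the affine group of functions `G → ℤ` -/
structure Aff (G : Type) where
  m : G → ℤ
  g : G

namespace Aff
variable {G : Type} [Group G]

@[ext] theorem ext' {p q : Aff G} (h1 : p.m = q.m) (h2 : p.g = q.g) : p = q := by
  cases p; cases q; simp_all

instance : Mul (Aff G) := ⟨fun p q => ⟨fun A => p.m A + q.m (p.g⁻¹ * A), p.g * q.g⟩⟩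
instance : One (Aff G) := ⟨⟨fun _ => 0, 1⟩⟩
instance : Inv (Aff G) := ⟨fun p => ⟨fun A => - p.m (p.g * A), p.g⁻¹⟩⟩

@[simp] theorem mul_m (p q : Aff G) (A : G) : (p * q).m A = p.m A + q.m (p.g⁻¹ * A) := rfl
@[simp] theorem mul_g (p q : Aff G) : (p * q).g = p.g * q.g := rfl
@[simp] theorem one_m (A : G) : (1 : Aff G).m A = 0 := rfl
@[simp] theorem one_g : (1 : Aff G).g = 1 := rfl
@[simp] theorem inv_m (p : Aff G) (A : G) : (p⁻¹).m A = - p.m (p.g * A) := rfl
@[simp] theorem inv_g (p : Aff G) : (p⁻¹).g = p.g⁻¹ := rfl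

instance : Group (Aff G) := Group.ofLeftAxioms
  (by intro a b c; ext
      · simp [mul_assoc, add_assoc]
      · simp [mul_assoc])
  (by intro a; ext
      · simp
      · simp)
  (by intro a; ext
      · simp
      · simp)

/-- the projection -/
def proj : Aff G →* G := ⟨⟨fun p => p.g, rfl⟩, fun _ _ => rfl⟩

end Aff

variable {α : Type} [DecidableEq α]

/-- the homomorphism defining the Fox derivative -/
noncomputable def foxHom (x : α) : FreeGroup α →* Aff (FreeGroup α) :=
  haveI := Classical.decEq (FreeGroup α)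
  FreeGroup.lift (fun y => ⟨fun A => if y = x ∧ A = FreeGroup.of y then 1 else 0, FreeGroup.of y⟩)

theorem foxHom_g (x : α) (v : FreeGroup α) : (foxHom x v).g = v := by
  have h : (Aff.proj.comp (foxHom x)) = MonoidHom.id (FreeGroup α) := by
    apply FreeGroup.ext_hom
    intro y
    simp [foxHom, Aff.proj]
  exact DFunLike.congr_fun h v

/-- the Fox derivative `D_x(v)[A]` -/
noncomputable def fox (x : α) (v : FreeGroup α) (A : FreeGroup α) : ℤ := (foxHom x v).m A

theorem fox_one (x : α) (A : FreeGroup α) : fox x 1 A = 0 := by simp [fox]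

theorem fox_mul (x : α) (v w A : FreeGroup α) :
    fox x (v * w) A = fox x v A + fox x w (v⁻¹ * A) := by
  simp only [fox, map_mul, Aff.mul_m, foxHom_g]

theorem fox_of_self (x : α) (A : FreeGroup α) [Decidable (A = FreeGroup.of x)] :
    fox x (FreeGroup.of x) A = if A = FreeGroup.of x then 1 else 0 := by
  simp [fox, foxHom]

theorem fox_of_ne {x y : α} (h : y ≠ x) (A : FreeGroup α) : fox x (FreeGroup.of y) A = 0 := by
  simp [fox, foxHom, h]

theorem fox_inv (x : α) (v A : FreeGroup α) : fox x v⁻¹ A = - fox x v (v * A) := by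
  simp only [fox, map_inv, Aff.inv_m, foxHom_g]

end Pool.Agent.H146FF
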