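import Mathlib
import Pool.Agent.H146R2.FF.Fox

/-! The words `g_j = w_j u_{c 0} w_j u_{c 1} ⋯ u_{c (L-1)} w_j` in the free group on
`w_j (j : ℕ)` and `u_i (i : Fin k)`; exponents, linking numbers, Fox derivatives. -/

namespace Pool.Agent.H146FF

/-- the free group on `w_j`, `u_i` -/
abbrev Gam (k : ℕ) : Type := FreeGroup (ℕ ⊕ Fin k)

section

variable {k : ℕ}

/-- the exponent of `w_j` -/
def exHom (j : ℕ) : Gam k →* Multiplicative ℤ :=
  FreeGroup.lift (Sum.elim (fun j' => if j' = j then Multiplicative.ofAdd 1 else 1) (fun _ => 1))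

def ex (j : ℕ) (A : Gam k) : ℤ := Multiplicative.toAdd (exHom j A)

@[simp] theorem ex_one (j : ℕ) : ex j (1 : Gam k) = 0 := by simp [ex]
@[simp] theorem ex_mul (j : ℕ) (A B : Gam k) : ex j (A * B) = ex j A + ex j B := by simp [ex]
@[simp] theorem ex_inv (j : ℕ) (A : Gam k) : ex j A⁻¹ = - ex j A := by simp [ex]

/-- the Heisenberg group -/
structure Heis where
  x : ℤ
  y : ℤ
  z : ℤ

namespace Heis

@[ext] theorem ext' {p q : Heis} (h1 : p.x = q.x) (h2 : p.y = q.y) (h3 : p.z = q.z) : p = q := by
  cases p; cases q; simp_all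

instance : Mul Heis := ⟨fun p q => ⟨p.x + q.x, p.y + q.y, p.z + q.z + p.x * q.y⟩⟩
instance : One Heis := ⟨⟨0, 0, 0⟩⟩
instance : Inv Heis := ⟨fun p => ⟨-p.x, -p.y, -p.z + p.x * p.y⟩⟩

@[simp] theorem mul_x (p q : Heis) : (p * q).x = p.x + q.x := rfl
@[simp] theorem mul_y (p q : Heis) : (p * q).y = p.y + q.y := rfl
@[simp] theorem mul_z (p q : Heis) : (p * q).z = p.z + q.z + p.x * q.y := rfl
@[simp] theorem one_x : (1 : Heis).x = 0 := rfl
@[simp] theorem one_y : (1 : Heis).y = 0 := rfl
@[simp] theorem one_z : (1 : Heis).z = 0 := rfl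
@[simp] theorem inv_x (p : Heis) : (p⁻¹).x = -p.x := rfl
@[simp] theorem inv_y (p : Heis) : (p⁻¹).y = -p.y := rfl
@[simp] theorem inv_z (p : Heis) : (p⁻¹).z = -p.z + p.x * p.y := rfl

instance : Group Heis := Group.ofLeftAxioms
  (by intro a b c; ext <;> simp <;> ring)
  (by intro a; ext <;> simp)
  (by intro a; ext <;> simp)

end Heis

/-- `w_j ↦ X`, `w_{j'} ↦ Y`, all other generators are mapped to `1`. -/
def heisHom (j j' : ℕ) : Gam k →* Heis :=
  FreeGroup.lift (Sum.elim (fun i => if i = j then ⟨1, 0, 0⟩ else if i = j' then ⟨0, 1, 0⟩ else 1)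
    (fun _ => 1))

/-- the linking number of `w_j` and `w_{j'}` -/
def hz (j j' : ℕ) (A : Gam k) : ℤ := (heisHom j j' A).z

theorem heis_x (j j' : ℕ) (A : Gam k) : (heisHom j j' A).x = ex j A := by
  induction A using FreeGroup.induction_on with
  | C1 => simp
  | of z =>
    rcases z with i | i
    · by_cases h : i = j
      · simp [heisHom, ex, exHom, h]
      · by_cases h' : i = j'
        · subst h'; simp [heisHom, ex, exHom, h]
        · simp [heisHom, ex, exHom, h, h']
    · simp [heisHom, ex, exHom]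
  | inv_of z ih => simp only [map_inv, Heis.inv_x, ex_inv]; rw [ih]
  | mul A B h1 h2 => simp [h1, h2]

theorem heis_y {j j' : ℕ} (hj : j ≠ j') (A : Gam k) : (heisHom j j' A).y = ex j' A := by
  induction A using FreeGroup.induction_on with
  | C1 => simp
  | of z =>
    rcases z with i | i
    · by_cases h : i = j
      · subst h; simp [heisHom, ex, exHom, hj]
      · by_cases h' : i = j'
        · subst h'; simp [heisHom, ex, exHom, h]
        · simp [heisHom, ex, exHom, h, h']
    · simp [heisHom, ex, exHom]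
  | inv_of z ih => simp only [map_inv, Heis.inv_y, ex_inv]; rw [ih]
  | mul A B h1 h2 => simp [h1, h2]

@[simp] theorem hz_one (j j' : ℕ) : hz j j' (1 : Gam k) = 0 := by simp [hz]

theorem hz_mul {j j' : ℕ} (hj : j ≠ j') (A B : Gam k) :
    hz j j' (A * B) = hz j j' A + hz j j' B + ex j A * ex j' B := by
  simp only [hz, map_mul, Heis.mul_z, heis_x, heis_y hj]

theorem hz_inv {j j' : ℕ} (hj : j ≠ j') (A : Gam k) :
    hz j j' A⁻¹ = - hz j j' A + ex j A * ex j' A := by
  simp only [hz, map_inv, Heis.inv_z, heis_x, heis_y hj]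

/-- the retraction killing `w_j` -/
def ret (j : ℕ) : Gam k →* Gam k :=
  FreeGroup.lift (Sum.elim (fun i => if i = j then 1 else FreeGroup.of (Sum.inl i))
    (fun i => FreeGroup.of (Sum.inr i)))

/-- the elements in which `w_j` does not occur -/
def NoJ (j : ℕ) : Subgroup (Gam k) := MonoidHom.eqLocus (ret j) (MonoidHom.id _)

theorem mem_NoJ {j : ℕ} {A : Gam k} : A ∈ NoJ j ↔ ret j A = A := Iff.rfl

theorem ex_ret (j : ℕ) (A : Gam k) : ex j (ret j A) = 0 := by
  induction A using FreeGroup.induction_on with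
  | C1 => simp
  | of z =>
    rcases z with i | i
    · by_cases h : i = j
      · simp [ret, h]
      · simp [ret, ex, exHom, h]
    · simp [ret, ex, exHom]
  | inv_of z ih => simp only [map_inv, ex_inv]; rw [ih]; simp
  | mul A B h1 h2 => simp [h1, h2]

theorem ex_NoJ {j : ℕ} {A : Gam k} (h : A ∈ NoJ j) : ex j A = 0 := by
  rw [mem_NoJ] at h; rw [← h]; exact ex_ret j A

theorem not_NoJ {j : ℕ} {A : Gam k} (h : ex j A ≠ 0) : A ∉ NoJ j := fun h' => h (ex_NoJ h')

theorem hz_ret_left {j j' : ℕ} (hj : j ≠ j') (A : Gam k) : hz j j' (ret j A) = 0 := by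
  induction A using FreeGroup.induction_on with
  | C1 => simp
  | of z =>
    rcases z with i | i
    · by_cases h : i = j
      · simp [ret, h]
      · by_cases h' : i = j'
        · subst h'; simp [ret, hz, heisHom, h]
        · simp [ret, hz, heisHom, h, h']
    · simp [ret, hz, heisHom]
  | inv_of z ih => simp only [map_inv]; rw [hz_inv hj, ih, ex_ret]; simp
  | mul A B h1 h2 => simp only [map_mul]; rw [hz_mul hj, h1, h2, ex_ret]; simp

theorem hz_ret_right {j j' : ℕ} (hj : j ≠ j') (A : Gam k) : hz j j' (ret j' A) = 0 := by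
  induction A using FreeGroup.induction_on with
  | C1 => simp
  | of z =>
    rcases z with i | i
    · by_cases h : i = j'
      · simp [ret, h]
      · by_cases h' : i = j
        · subst h'; simp [ret, hz, heisHom, h]
        · simp [ret, hz, heisHom, h, h']
    · simp [ret, hz, heisHom]
  | inv_of z ih => simp only [map_inv]; rw [hz_inv hj, ih, ex_ret]; simp
  | mul A B h1 h2 => simp only [map_mul]; rw [hz_mul hj, h1, h2, ex_ret]; simp

theorem hz_NoJ_left {j j' : ℕ} (hj : j ≠ j') {A : Gam k} (h : A ∈ NoJ j) : hz j j' A = 0 := by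
  rw [mem_NoJ] at h; rw [← h]; exact hz_ret_left hj A

theorem hz_NoJ_right {j j' : ℕ} (hj : j ≠ j') {A : Gam k} (h : A ∈ NoJ j') : hz j j' A = 0 := by
  rw [mem_NoJ] at h; rw [← h]; exact hz_ret_right hj A

/-- right version: `X p = X' p'` -/
theorem lemG {j j' : ℕ} (hj : j ≠ j') {X p X' p' : Gam k} (hX : X ∈ NoJ j) (hp : p ∈ NoJ j')
    (hX' : X' ∈ NoJ j') (hp' : p' ∈ NoJ j) (h : X * p = X' * p') (e : ex j p ≠ 0)
    (e' : ex j' p' ≠ 0) : False := by
  have h1 := congrArg (hz j j') h
  rw [hz_mul hj, hz_mul hj, hz_NoJ_left hj hX, hz_NoJ_right hj hp, hz_NoJ_right hj hX',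
    hz_NoJ_left hj hp', ex_NoJ hX] at h1
  have h2 := congrArg (ex j) h
  rw [ex_mul, ex_mul, ex_NoJ hX, ex_NoJ hp'] at h2
  have h3 : ex j X' ≠ 0 := by intro h3; apply e; linarith
  have h4 : ex j X' * ex j' p' ≠ 0 := mul_ne_zero h3 e'
  apply h4; linarith

/-- left version: `p X = p' X'` -/
theorem lemG' {j j' : ℕ} (hj : j ≠ j') {X p X' p' : Gam k} (hX : X ∈ NoJ j) (hp : p ∈ NoJ j')
    (hX' : X' ∈ NoJ j') (hp' : p' ∈ NoJ j) (h : p * X = p' * X') (e : ex j p ≠ 0)
    (e' : ex j' p' ≠ 0) : False := by
  have h1 := congrArg (fun t => t⁻¹) h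
  simp only [mul_inv_rev] at h1
  exact lemG hj (inv_mem hX) (inv_mem hp) (inv_mem hX') (inv_mem hp') h1
    (by rw [ex_inv]; exact neg_ne_zero.2 e) (by rw [ex_inv]; exact neg_ne_zero.2 e')

/-- the Fox derivative of an element without `w_j` is supported on elements without `w_j` -/
theorem fox_NoJ {j : ℕ} {x : ℕ ⊕ Fin k} (hx : x ≠ Sum.inl j) {v A : Gam k} (hv : v ∈ NoJ j)
    (hA : A ∉ NoJ j) : fox x v A = 0 := by
  have key : ∀ v A : Gam k, A ∉ NoJ j → fox x (ret j v) A = 0 := by
    intro v
    induction v using FreeGroup.induction_on with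
    | C1 => intro A hA; simp [fox_one]
    | of z =>
      intro A hA
      by_cases h : z = Sum.inl j
      · subst h; simp [ret, fox_one]
      · have h1 : ret j (FreeGroup.of z) = FreeGroup.of z := by
          rcases z with i | i
          · have : i ≠ j := fun h' => h (by rw [h'])
            simp [ret, this]
          · simp [ret]
        rw [h1]
        by_cases h2 : z = x
        · subst h2
          classical
          rw [fox_of_self, if_neg]
          intro h3; apply hA; rw [h3]; exact mem_NoJ.2 h1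
        · exact fox_of_ne h2 A
    | inv_of z ih =>
      intro A hA
      rw [map_inv, fox_inv, ih _ _, neg_zero]
      intro h
      apply hA
      have h2 : ret j (FreeGroup.of z) ∈ NoJ j := by
        rw [mem_NoJ]
        rcases z with i | i
        · by_cases h' : i = j
          · simp [ret, h']
          · simp [ret, h']
        · simp [ret]
      have := mul_mem (inv_mem h2) h
      simpa using this
    | mul v w h1 h2 =>
      intro A hA
      rw [map_mul, fox_mul, h1 A hA, h2 _ _, add_zero]
      intro h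
      apply hA
      have h2 : ret j v ∈ NoJ j := by
        rw [mem_NoJ]
        have : (ret j).comp (ret j) = (ret j : Gam k →* Gam k) := by
          apply FreeGroup.ext_hom
          intro z
          rcases z with i | i
          · by_cases h' : i = j
            · simp [ret, h']
            · simp [ret, h']
          · simp [ret]
        exact DFunLike.congr_fun this v
      have := mul_mem h2 h
      simpa using this
  rw [mem_NoJ] at hv
  rw [← hv]
  exact key v A hA

end

end Pool.Agent.H146FF
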