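import Mathlib
import Pool.Agent.H146R2.FF.Words

/-! The elements `g_σ`, `a_σ(l)`, `b_σ(l)`; exponents and Fox derivatives. -/

namespace Pool.Agent.H146FF

section

variable {k : ℕ} [NeZero k]

/-- the colour of the `l`-th letter -/
def col (k : ℕ) [NeZero k] (l : ℕ) : Fin k := ⟨l % k, Nat.mod_lt _ (Nat.pos_of_ne_zero (NeZero.ne k))⟩

def wj (k : ℕ) (j : ℕ) : Gam k := FreeGroup.of (Sum.inl j)
def ui (i : Fin k) : Gam k := FreeGroup.of (Sum.inr i)

/-- `(w_j u_{c 0}) ⋯ (w_j u_{c (n-1)})` -/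
def pre (k : ℕ) [NeZero k] (j : ℕ) : ℕ → Gam k
  | 0 => 1
  | n + 1 => pre k j n * (wj k j * ui (col k n))

def gg (k : ℕ) [NeZero k] (L j : ℕ) : Gam k := pre k j L * wj k j

/-- signed indices -/
abbrev Sg : Type := ℕ × Bool

def es (σ : Sg) : ℤ := if σ.2 then 1 else -1

def gs (k : ℕ) [NeZero k] (L : ℕ) (σ : Sg) : Gam k := if σ.2 then gg k L σ.1 else (gg k L σ.1)⁻¹

def as (k : ℕ) [NeZero k] (L : ℕ) (σ : Sg) (l : ℕ) : Gam k :=
  if σ.2 then pre k σ.1 (l + 1) else (gg k L σ.1)⁻¹ * pre k σ.1 (l + 1)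

def bs (k : ℕ) [NeZero k] (L : ℕ) (σ : Sg) (l : ℕ) : Gam k := (as k L σ l)⁻¹ * gs k L σ

theorem as_mul_bs (L : ℕ) (σ : Sg) (l : ℕ) : as k L σ l * bs k L σ l = gs k L σ := by
  simp [bs]

theorem es_sq (σ : Sg) : es σ * es σ = 1 := by
  unfold es; split_ifs <;> norm_num

theorem es_ne (σ : Sg) : es σ ≠ 0 := by
  unfold es; split_ifs <;> norm_num

theorem ex_wj_self (j : ℕ) : ex j (wj k j) = 1 := by simp [ex, exHom, wj]
theorem ex_ui (j : ℕ) (i : Fin k) : ex j (ui i) = 0 := by simp [ex, exHom, ui]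

theorem ex_pre (j n : ℕ) : ex j (pre k j n) = n := by
  induction n with
  | zero => simp [pre]
  | succ n ih => simp [pre, ih, ex_wj_self, ex_ui]

theorem ex_gg (L j : ℕ) : ex j (gg k L j) = L + 1 := by simp [gg, ex_pre, ex_wj_self]

theorem ex_gs (L : ℕ) (σ : Sg) : ex σ.1 (gs k L σ) = es σ * (L + 1) := by
  unfold gs es; split_ifs <;> simp [ex_gg] 

theorem ex_gs_ne (L : ℕ) (σ : Sg) : ex σ.1 (gs k L σ) ≠ 0 := by
  rw [ex_gs]; apply mul_ne_zero (es_ne σ); positivity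

theorem ex_as_true (L j l : ℕ) : ex j (as k L (j, true) l) = l + 1 := by
  simp [as, ex_pre]

theorem ex_as_false (L j l : ℕ) : ex j (as k L (j, false) l) = l - L := by
  simp [as, ex_pre, ex_gg]; ring

theorem ex_bs_true (L j l : ℕ) : ex j (bs k L (j, true) l) = L - l := by
  simp [bs, gs, as, ex_pre, ex_gg]; ring

theorem ex_bs_false (L j l : ℕ) : ex j (bs k L (j, false) l) = - (l + 1) := by
  simp [bs, gs, as, ex_pre, ex_gg]

theorem ex_as_ne (L : ℕ) (σ : Sg) {l : ℕ} (hl : l < L) : ex σ.1 (as k L σ l) ≠ 0 := by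
  rcases σ with ⟨j, b⟩
  cases b
  · simp only [ex_as_false]; omega
  · simp only [ex_as_true]; omega

theorem ex_bs_ne (L : ℕ) (σ : Sg) {l : ℕ} (hl : l < L) : ex σ.1 (bs k L σ l) ≠ 0 := by
  rcases σ with ⟨j, b⟩
  cases b
  · simp only [ex_bs_false]; omega
  · simp only [ex_bs_true]; omega

/-- the exponent of `a_σ(l)` determines the sign and `l` -/
theorem ex_as_inj (L j : ℕ) {b b' : Bool} {l l' : ℕ} (hl : l < L) (hl' : l' < L)
    (h : ex j (as k L (j, b) l) = ex j (as k L (j, b') l')) : b = b' ∧ l = l' := by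
  cases b <;> cases b' <;> simp only [ex_as_false, ex_as_true] at h
  · exact ⟨rfl, by omega⟩
  · exfalso; omega
  · exfalso; omega
  · exact ⟨rfl, by omega⟩

theorem ex_bs_inj (L j : ℕ) {b b' : Bool} {l l' : ℕ} (hl : l < L) (hl' : l' < L)
    (h : ex j (bs k L (j, b) l) = ex j (bs k L (j, b') l')) : b = b' ∧ l = l' := by
  cases b <;> cases b' <;> simp only [ex_bs_false, ex_bs_true] at h
  · exact ⟨rfl, by omega⟩
  · exfalso; omega
  · exfalso; omega
  · exact ⟨rfl, by omega⟩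

theorem wj_NoJ {j j' : ℕ} (h : j ≠ j') : wj k j ∈ NoJ j' := by
  rw [mem_NoJ]; simp [ret, wj, h]

theorem ui_NoJ (j : ℕ) (i : Fin k) : ui i ∈ NoJ j := by
  rw [mem_NoJ]; simp [ret, ui]

theorem pre_NoJ {j j' : ℕ} (h : j ≠ j') (n : ℕ) : pre k j n ∈ NoJ j' := by
  induction n with
  | zero => exact one_mem _
  | succ n ih => exact mul_mem ih (mul_mem (wj_NoJ h) (ui_NoJ _ _))

theorem gg_NoJ {j j' : ℕ} (h : j ≠ j') (L : ℕ) : gg k L j ∈ NoJ j' :=
  mul_mem (pre_NoJ h _) (wj_NoJ h)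

theorem gs_NoJ {σ : Sg} {j' : ℕ} (h : σ.1 ≠ j') (L : ℕ) : gs k L σ ∈ NoJ j' := by
  unfold gs; split_ifs
  · exact gg_NoJ h L
  · exact inv_mem (gg_NoJ h L)

theorem as_NoJ {σ : Sg} {j' : ℕ} (h : σ.1 ≠ j') (L l : ℕ) : as k L σ l ∈ NoJ j' := by
  unfold as; split_ifs
  · exact pre_NoJ h _
  · exact mul_mem (inv_mem (gg_NoJ h L)) (pre_NoJ h _)

theorem bs_NoJ {σ : Sg} {j' : ℕ} (h : σ.1 ≠ j') (L l : ℕ) : bs k L σ l ∈ NoJ j' :=
  mul_mem (inv_mem (as_NoJ h L l)) (gs_NoJ h L)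

/-- **Lemma H** -/
theorem lemH (L : ℕ) {σ σ' : Sg} {l l' : ℕ} (hl : l < L) (hl' : l' < L) {x x' : Gam k}
    (hx : x ∈ NoJ σ.1) (hx' : x' ∈ NoJ σ'.1) (h : x * as k L σ l = x' * as k L σ' l') :
    σ = σ' ∧ l = l' ∧ x = x' := by
  by_cases hj : σ.1 = σ'.1
  · rcases σ with ⟨j, b⟩
    rcases σ' with ⟨j', b'⟩
    simp only at hj hx hx'
    subst hj
    have h2 := congrArg (ex j) h
    rw [ex_mul, ex_mul, ex_NoJ hx, ex_NoJ hx', zero_add, zero_add] at h2
    obtain ⟨h3, h4⟩ := ex_as_inj L j hl hl' h2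
    subst h3; subst h4
    exact ⟨rfl, rfl, mul_right_cancel h⟩
  · exact (lemG hj hx (as_NoJ hj L l) hx' (as_NoJ (Ne.symm hj) L l') h (ex_as_ne L σ hl)
      (ex_as_ne L σ' hl')).elim

theorem lemH' (L : ℕ) {σ σ' : Sg} {l l' : ℕ} (hl : l < L) (hl' : l' < L) {x x' : Gam k}
    (hx : x ∈ NoJ σ.1) (hx' : x' ∈ NoJ σ'.1) (h : as k L σ l * x = as k L σ' l' * x') :
    σ = σ' ∧ l = l' ∧ x = x' := by
  by_cases hj : σ.1 = σ'.1
  · rcases σ with ⟨j, b⟩
    rcases σ' with ⟨j', b'⟩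
    simp only at hj hx hx'
    subst hj
    have h2 := congrArg (ex j) h
    rw [ex_mul, ex_mul, ex_NoJ hx, ex_NoJ hx', add_zero, add_zero] at h2
    obtain ⟨h3, h4⟩ := ex_as_inj L j hl hl' h2
    subst h3; subst h4
    exact ⟨rfl, rfl, mul_left_cancel h⟩
  · exact (lemG' hj hx (as_NoJ hj L l) hx' (as_NoJ (Ne.symm hj) L l') h (ex_as_ne L σ hl)
      (ex_as_ne L σ' hl')).elim

/-! ### Fox derivatives -/

theorem fox_wj (i : Fin k) (j : ℕ) (A : Gam k) : fox (Sum.inr i) (wj k j) A = 0 := by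
  apply fox_of_ne; simp

open Classical in
theorem fox_ui (i i' : Fin k) (A : Gam k) :
    fox (Sum.inr i) (ui i') A = if i' = i ∧ A = ui i' then 1 else 0 := by
  by_cases h : i' = i
  · subst h
    have := fox_of_self (Sum.inr i' : ℕ ⊕ Fin k) A
    simp only [ui]
    rw [this]; simp
  · have : fox (Sum.inr i : ℕ ⊕ Fin k) (ui i') A = 0 := by
      apply fox_of_ne; simp [h]
    rw [this]; simp [h]

open Classical in
/-- full formula for the Fox derivative of `pre` -/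
theorem fox_pre (i : Fin k) (j n : ℕ) (A : Gam k) :
    fox (Sum.inr i) (pre k j n) A =
      ∑ l ∈ Finset.range n, if col k l = i ∧ A = pre k j (l + 1) then 1 else 0 := by
  induction n generalizing A with
  | zero => simp [pre, fox_one]
  | succ n ih =>
    rw [Finset.sum_range_succ, ← ih, pre, fox_mul, fox_mul, fox_wj, zero_add, fox_ui]
    congr 1
    have : ((wj k j)⁻¹ * ((pre k j n)⁻¹ * A) = ui (col k n)) ↔
        A = pre k j n * (wj k j * ui (col k n)) := by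
      constructor
      · intro h; rw [← h]; group
      · intro h; rw [h]; group
    simp only [this]

theorem fox_pre_pre (i : Fin k) (j n r : ℕ) :
    fox (Sum.inr i) (pre k j n) (pre k j (r + 1)) = if r < n ∧ col k r = i then 1 else 0 := by
  classical
  rw [fox_pre]
  have h1 : ∀ l : ℕ, (pre k j (r + 1) = pre k j (l + 1)) ↔ l = r := by
    intro l
    constructor
    · intro h
      have := congrArg (ex j) h
      rw [ex_pre, ex_pre] at this
      omega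
    · intro h; rw [h]
  simp only [h1]
  by_cases h : r < n ∧ col k r = i
  · rw [if_pos h, Finset.sum_eq_single r]
    · simp [h.2]
    · intro b _ hb; rw [if_neg]; rintro ⟨-, h3⟩; exact hb h3
    · intro h2; exact absurd (Finset.mem_range.2 h.1) h2
  · rw [if_neg h]
    apply Finset.sum_eq_zero
    intro l hl
    rw [if_neg]
    rintro ⟨h2, h3⟩
    subst h3
    exact h ⟨Finset.mem_range.1 hl, h2⟩

theorem fox_gg (i : Fin k) (L j : ℕ) (A : Gam k) :
    fox (Sum.inr i) (gg k L j) A = fox (Sum.inr i) (pre k j L) A := by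
  rw [gg, fox_mul, fox_wj, add_zero]

open Classical in
/-- the Fox derivative of `g_σ` -/
theorem fox_gs (i : Fin k) (L : ℕ) (σ : Sg) (A : Gam k) :
    fox (Sum.inr i) (gs k L σ) A =
      ∑ l ∈ Finset.range L, if col k l = i ∧ A = as k L σ l then es σ else 0 := by
  rcases σ with ⟨j, b⟩
  cases b
  · simp only [gs, as, es, Bool.false_eq_true, if_false]
    rw [fox_inv, fox_gg, fox_pre, ← Finset.sum_neg_distrib]
    apply Finset.sum_congr rfl
    intro l _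
    have : (gg k L j * A = pre k j (l + 1)) ↔ (A = (gg k L j)⁻¹ * pre k j (l + 1)) := by
      constructor
      · intro h; rw [← h]; group
      · intro h; rw [h]; group
    simp only [this]
    split_ifs <;> simp
  · simp only [gs, as, es, if_true]
    rw [fox_gg, fox_pre]

theorem fox_gs_as (i : Fin k) (L : ℕ) (σ : Sg) {m : ℕ} (hm : m < L) (hi : col k m = i) :
    fox (Sum.inr i) (gs k L σ) (as k L σ m) = es σ := by
  classical
  rw [fox_gs, Finset.sum_eq_single m]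
  · simp [hi]
  · intro l hl hlm
    rw [if_neg]
    rintro ⟨-, h⟩
    have h2 : ex σ.1 (as k L (σ.1, σ.2) m) = ex σ.1 (as k L (σ.1, σ.2) l) := by
      simpa using congrArg (ex σ.1) h
    exact hlm ((ex_as_inj L σ.1 hm (Finset.mem_range.1 hl) h2).2).symm
  · intro h; exact absurd (Finset.mem_range.2 hm) h

/-- `r` comes before `l` in `g_σ` -/
def bef (σ : Sg) (r l : ℕ) : Prop := if σ.2 then r < l else l < r

/-- the derivative of a prefix at an earlier letter -/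
theorem fox_as_as (i : Fin k) (L : ℕ) (σ : Sg) {l r : ℕ} (hl : l < L) (hr : r < L)
    (h : bef σ r l) (hi : col k r = i) :
    fox (Sum.inr i) (as k L σ l) (as k L σ r) = es σ := by
  rcases σ with ⟨j, b⟩
  cases b
  · simp only [bef, Bool.false_eq_true, if_false] at h
    simp only [as, es, Bool.false_eq_true, if_false]
    rw [fox_mul, fox_inv, fox_gg]
    simp only [mul_inv_cancel_left, inv_inv]
    rw [fox_pre_pre, fox_pre_pre, if_pos ⟨hr, hi⟩, if_neg (by omega)]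
    norm_num
  · simp only [bef, if_true] at h
    simp only [as, es, if_true]
    rw [fox_pre_pre, if_pos ⟨by omega, hi⟩]

/-- the opposite signed index -/
def op (σ : Sg) : Sg := (σ.1, !σ.2)

@[simp] theorem op_fst (σ : Sg) : (op σ).1 = σ.1 := rfl

theorem es_op (σ : Sg) : es (op σ) = - es σ := by
  rcases σ with ⟨j, b⟩; cases b <;> simp [es, op]

theorem bs_inv (L : ℕ) (σ : Sg) (l : ℕ) : (bs k L σ l)⁻¹ = as k L (op σ) l := by
  rcases σ with ⟨j, b⟩; cases b <;> simp [bs, as, gs, op]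

theorem bef_op {σ : Sg} {r l : ℕ} (h : ¬ bef σ r l) (hne : r ≠ l) : bef (op σ) r l := by
  rcases σ with ⟨j, b⟩
  cases b <;> simp [bef, op] at h ⊢ <;> omega

theorem ex_as_sub (L : ℕ) (σ : Sg) (r l : ℕ) :
    ex σ.1 (as k L σ r) - ex σ.1 (as k L σ l) = r - l := by
  rcases σ with ⟨j, b⟩
  cases b <;> simp only [ex_as_false, ex_as_true] <;> ring

theorem ex_bs_sub (L : ℕ) (σ : Sg) (r l : ℕ) :
    ex σ.1 (bs k L σ r) - ex σ.1 (bs k L σ l) = l - r := by
  rcases σ with ⟨j, b⟩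
  cases b <;> simp only [ex_bs_false, ex_bs_true] <;> ring

/-- **(D1)** -/
theorem fox_D1 (L : ℕ) (σ : Sg) {m : ℕ} (hm : m < L) {x y : Gam k} (hx : x ∈ NoJ σ.1)
    (hy : y ∈ NoJ σ.1) :
    fox (Sum.inr (col k m)) (x * gs k L σ * y) (x * as k L σ m) = es σ := by
  rw [mul_assoc, fox_mul, fox_mul, fox_NoJ (by simp) hx, fox_NoJ (by simp) hy]
  · simp only [inv_mul_cancel_left]
    rw [fox_gs_as _ L σ hm rfl]; ring
  · apply not_NoJ
    simp only [inv_mul_cancel_left]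
    have : (gs k L σ)⁻¹ * as k L σ m = (bs k L σ m)⁻¹ := by simp [bs]
    rw [this, ex_inv]
    exact neg_ne_zero.2 (ex_bs_ne L σ hm)
  · apply not_NoJ
    rw [ex_mul, ex_NoJ hx, zero_add]
    exact ex_as_ne L σ hm

/-- **(D2a)** -/
theorem fox_D2a (L : ℕ) {σ τ : Sg} (hστ : σ.1 ≠ τ.1) {l r : ℕ} (hl : l < L) (hr : r < L)
    (h : bef σ r l) {A B : Gam k} (hA : A ∈ NoJ σ.1) (hA2 : A ∈ NoJ τ.1) (hB : B ∈ NoJ τ.1) :
    fox (Sum.inr (col k r)) (A * (as k L σ l)⁻¹ * gs k L τ * ((bs k L σ l)⁻¹ * B))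
      (A * (as k L σ l)⁻¹ * as k L σ r) = - es σ := by
  have hrl : (r : ℤ) - l ≠ 0 := by
    have : r ≠ l := by
      intro h'; subst h'; unfold bef at h; split_ifs at h <;> omega
    omega
  have h0 := ex_as_sub (k := k) L σ r l
  have h1 : fox (Sum.inr (col k r)) A (A * (as k L σ l)⁻¹ * as k L σ r) = 0 := by
    apply fox_NoJ (by simp) hA
    apply not_NoJ
    rw [ex_mul, ex_mul, ex_inv, ex_NoJ hA]
    intro h3; apply hrl; linarith
  have h2 : fox (Sum.inr (col k r)) (as k L σ l)⁻¹ ((as k L σ l)⁻¹ * as k L σ r) = - es σ := by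
    rw [fox_inv]
    simp only [mul_inv_cancel_left]
    rw [fox_as_as _ L σ hl hr h rfl]
  have h3 : fox (Sum.inr (col k r)) (gs k L τ) (as k L σ r) = 0 := by
    apply fox_NoJ (by simp) (gs_NoJ (Ne.symm hστ) L)
    exact not_NoJ (ex_as_ne L σ hr)
  have h4 : fox (Sum.inr (col k r)) ((bs k L σ l)⁻¹ * B) ((gs k L τ)⁻¹ * as k L σ r) = 0 := by
    apply fox_NoJ (by simp) (mul_mem (inv_mem (bs_NoJ hστ L l)) hB)
    apply not_NoJ
    rw [ex_mul, ex_inv, ex_NoJ (as_NoJ hστ L r), add_zero]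
    exact neg_ne_zero.2 (ex_gs_ne L τ)
  have e1 : A * (as k L σ l)⁻¹ * gs k L τ * ((bs k L σ l)⁻¹ * B) =
      A * ((as k L σ l)⁻¹ * (gs k L τ * ((bs k L σ l)⁻¹ * B))) := by group
  rw [e1, fox_mul, h1, fox_mul]
  have e2 : A⁻¹ * (A * (as k L σ l)⁻¹ * as k L σ r) = (as k L σ l)⁻¹ * as k L σ r := by group
  rw [e2, h2, fox_mul]
  have e3 : ((as k L σ l)⁻¹)⁻¹ * ((as k L σ l)⁻¹ * as k L σ r) = as k L σ r := by group
  rw [e3, h3, h4]
  ring

/-- **(D2b)** -/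
theorem fox_D2b (L : ℕ) {σ τ : Sg} (hστ : σ.1 ≠ τ.1) {l r : ℕ} (hl : l < L) (hr : r < L)
    (h : bef (op σ) r l) {A B : Gam k} (hA2 : A ∈ NoJ τ.1) (hB : B ∈ NoJ σ.1) :
    fox (Sum.inr (col k r)) (A * (as k L σ l)⁻¹ * gs k L τ * ((bs k L σ l)⁻¹ * B))
      (A * (as k L σ l)⁻¹ * gs k L τ * (bs k L σ r)⁻¹) = - es σ := by
  have hrl : (r : ℤ) - l ≠ 0 := by
    have : r ≠ l := by
      intro h'; subst h'; unfold bef at h; split_ifs at h <;> omega
    omega
  have h0 := ex_bs_sub (k := k) L σ r l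
  have h1 : fox (Sum.inr (col k r)) (A * (as k L σ l)⁻¹)
      (A * (as k L σ l)⁻¹ * gs k L τ * (bs k L σ r)⁻¹) = 0 := by
    have hx : A * (as k L σ l)⁻¹ ∈ NoJ τ.1 := mul_mem hA2 (inv_mem (as_NoJ hστ L l))
    apply fox_NoJ (by simp) hx
    apply not_NoJ
    rw [ex_mul, ex_mul, ex_NoJ hx, ex_inv, ex_NoJ (bs_NoJ hστ L r), zero_add, neg_zero, add_zero]
    exact ex_gs_ne L τ
  have h2 : fox (Sum.inr (col k r)) (gs k L τ) (gs k L τ * (bs k L σ r)⁻¹) = 0 := by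
    apply fox_NoJ (by simp) (gs_NoJ (Ne.symm hστ) L)
    apply not_NoJ
    rw [ex_mul, ex_NoJ (gs_NoJ (Ne.symm hστ) L), zero_add, ex_inv]
    exact neg_ne_zero.2 (ex_bs_ne L σ hr)
  have h3 : fox (Sum.inr (col k r)) (bs k L σ l)⁻¹ (bs k L σ r)⁻¹ = - es σ := by
    rw [bs_inv, bs_inv, fox_as_as _ L (op σ) hl hr h rfl, es_op]
  have h4 : fox (Sum.inr (col k r)) B (((bs k L σ l)⁻¹)⁻¹ * (bs k L σ r)⁻¹) = 0 := by
    apply fox_NoJ (by simp) hB
    apply not_NoJ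
    rw [ex_mul, inv_inv, ex_inv]
    intro h3; apply hrl; linarith
  rw [fox_mul, fox_mul, h1, fox_mul]
  have e2 : (A * (as k L σ l)⁻¹)⁻¹ * (A * (as k L σ l)⁻¹ * gs k L τ * (bs k L σ r)⁻¹) =
      gs k L τ * (bs k L σ r)⁻¹ := by group
  have e3 : (A * (as k L σ l)⁻¹ * gs k L τ)⁻¹ * (A * (as k L σ l)⁻¹ * gs k L τ * (bs k L σ r)⁻¹) =
      (bs k L σ r)⁻¹ := by group
  rw [e2, h2, e3, h3, h4]
  ring

end

end Pool.Agent.H146FF
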