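import Mathlib
import Pool.Agent.H146R2.FF.Data

/-! Injectivity lemmas. -/

namespace Pool.Agent.H146FF

section

variable {k : ℕ} [NeZero k]

theorem hz3 {j j' : ℕ} (hj : j ≠ j') {X M Z : Gam k} (hX : X ∈ NoJ j') (hM : M ∈ NoJ j)
    (hZ : Z ∈ NoJ j') : hz j j' (X * M * Z) = ex j X * ex j' M := by
  rw [hz_mul hj, hz_mul hj, hz_NoJ_right hj hX, hz_NoJ_left hj hM, hz_NoJ_right hj hZ,
    ex_NoJ hZ]
  ring

/-- first coordinate of the image of the basis vector `(A, B)` under the letter `(σ, l)` -/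
def oA (k : ℕ) [NeZero k] (L : ℕ) (σ : Sg) (l : ℕ) (A : Gam k) : Gam k := as k L σ l * A⁻¹
/-- second coordinate -/
def oB (k : ℕ) [NeZero k] (L : ℕ) (σ : Sg) (l : ℕ) (B : Gam k) : Gam k := B⁻¹ * bs k L σ l

/-- the two coordinates of the type 1 elements -/
def t1A (k : ℕ) [NeZero k] (L : ℕ) (σ : Sg) (l : ℕ) (τ : Sg) (m : ℕ) (A : Gam k) : Gam k :=
  (oA k L σ l A)⁻¹ * as k L τ m
def t1B (k : ℕ) [NeZero k] (L : ℕ) (σ : Sg) (l : ℕ) (τ : Sg) (m : ℕ) (B : Gam k) : Gam k :=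
  bs k L τ m * (oB k L σ l B)⁻¹

/-- type 2a -/
def t2A (k : ℕ) [NeZero k] (L : ℕ) (σ : Sg) (l : ℕ) (_τ : Sg) (r : ℕ) (A : Gam k) : Gam k :=
  A * (as k L σ l)⁻¹ * as k L σ r
def t2B (k : ℕ) [NeZero k] (L : ℕ) (σ : Sg) (l : ℕ) (τ : Sg) (r : ℕ) (B : Gam k) : Gam k :=
  (as k L σ r)⁻¹ * gs k L τ * ((bs k L σ l)⁻¹ * B)

/-- type 2b -/
def t3A (k : ℕ) [NeZero k] (L : ℕ) (σ : Sg) (l : ℕ) (τ : Sg) (r : ℕ) (A : Gam k) : Gam k :=
  A * (as k L σ l)⁻¹ * gs k L τ * (bs k L σ r)⁻¹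
def t3B (k : ℕ) [NeZero k] (L : ℕ) (σ : Sg) (l : ℕ) (_τ : Sg) (r : ℕ) (B : Gam k) : Gam k :=
  bs k L σ r * ((bs k L σ l)⁻¹ * B)

theorem t1_prod (L : ℕ) (σ : Sg) (l : ℕ) (τ : Sg) (m : ℕ) (A B : Gam k) :
    t1A k L σ l τ m A * t1B k L σ l τ m B =
      A * (as k L σ l)⁻¹ * gs k L τ * ((bs k L σ l)⁻¹ * B) := by
  simp only [t1A, t1B, oA, oB, bs]; group

theorem t2_prod (L : ℕ) (σ : Sg) (l : ℕ) (τ : Sg) (r : ℕ) (A B : Gam k) :
    t2A k L σ l τ r A * t2B k L σ l τ r B =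
      A * (as k L σ l)⁻¹ * gs k L τ * ((bs k L σ l)⁻¹ * B) := by
  simp only [t2A, t2B]; group

theorem t3_prod (L : ℕ) (σ : Sg) (l : ℕ) (τ : Sg) (r : ℕ) (A B : Gam k) :
    t3A k L σ l τ r A * t3B k L σ l τ r B =
      A * (as k L σ l)⁻¹ * gs k L τ * ((bs k L σ l)⁻¹ * B) := by
  simp only [t3A, t3B]; group

/-- output of a type 1 element under its own letter -/
theorem oA_t1 (L : ℕ) (σ : Sg) (l : ℕ) (τ : Sg) (m : ℕ) (A : Gam k) :
    oA k L τ m (t1A k L σ l τ m A) = oA k L σ l A := by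
  simp only [t1A, oA]; group

theorem oB_t1 (L : ℕ) (σ : Sg) (l : ℕ) (τ : Sg) (m : ℕ) (B : Gam k) :
    oB k L τ m (t1B k L σ l τ m B) = oB k L σ l B := by
  simp only [t1B, oB]; group

/-- injectivity of `Y` -/
theorem injY (L : ℕ) {σ σ' : Sg} {l l' : ℕ} (hl : l < L) (hl' : l' < L) {A A' B B' : Gam k}
    (hA : A ∈ NoJ σ.1) (hA' : A' ∈ NoJ σ'.1) (h : oA k L σ l A = oA k L σ' l' A')
    (h2 : oB k L σ l B = oB k L σ' l' B') : σ = σ' ∧ l = l' ∧ A = A' ∧ B = B' := by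
  obtain ⟨e1, e2, e3⟩ := lemH' L hl hl' (inv_mem hA) (inv_mem hA') h
  subst e1; subst e2
  refine ⟨rfl, rfl, inv_injective e3, ?_⟩
  exact inv_injective (mul_right_cancel h2)

/-- `(I1)` -/
theorem inv1 (L : ℕ) {σ τ σ' : Sg} {l m l' : ℕ} (hm : m < L) (hl' : l' < L) {A : Gam k}
    (hx : oA k L σ l A ∈ NoJ τ.1) (h : oA k L σ' l' (t1A k L σ l τ m A) ∈ NoJ σ'.1) :
    σ' = τ ∧ l' = m := by
  have h1 : (oA k L σ' l' (t1A k L σ l τ m A))⁻¹ * as k L σ' l' =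
      (oA k L σ l A)⁻¹ * as k L τ m := by
    simp only [oA, t1A]; group
  obtain ⟨e1, e2, -⟩ := lemH L hl' hm (inv_mem h) (inv_mem hx) h1
  exact ⟨e1, e2⟩

/-- injectivity of `K1` -/
theorem inj1 (L : ℕ) {σ τ σ' τ' : Sg} {l m l' m' : ℕ} (hl : l < L) (hm : m < L) (hl' : l' < L)
    (hm' : m' < L) {A B A' B' : Gam k}
    (hστ : σ.1 ≠ τ.1) (hστ' : σ'.1 ≠ τ'.1)
    (hA : A ∈ NoJ σ.1) (hA2 : A ∈ NoJ τ.1)
    (hA' : A' ∈ NoJ σ'.1) (hA2' : A' ∈ NoJ τ'.1)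
    (h : t1A k L σ l τ m A = t1A k L σ' l' τ' m' A')
    (h2 : t1B k L σ l τ m B = t1B k L σ' l' τ' m' B') :
    σ = σ' ∧ l = l' ∧ τ = τ' ∧ m = m' ∧ A = A' ∧ B = B' := by
  have hx : oA k L σ l A ∈ NoJ τ.1 := mul_mem (as_NoJ hστ L l) (inv_mem hA2)
  have hx' : oA k L σ' l' A' ∈ NoJ τ'.1 := mul_mem (as_NoJ hστ' L l') (inv_mem hA2')
  obtain ⟨e1, e2, e3⟩ := lemH L hm hm' (inv_mem hx) (inv_mem hx') h
  subst e1; subst e2
  have e4 := inv_injective (mul_left_cancel h2)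
  obtain ⟨f1, f2, f3, f4⟩ := injY L hl hl' hA hA' (inv_injective e3) e4
  exact ⟨f1, f2, rfl, rfl, f3, f4⟩

/-- `(I2a)` -/
theorem inv2 (L : ℕ) {σ τ σ' : Sg} {l r l' : ℕ} (hl : l < L) (hr : r < L) (hl' : l' < L)
    (hrl : r ≠ l) (hστ : σ.1 ≠ τ.1) {A B : Gam k}
    (hA : A ∈ NoJ σ.1) (hA2 : A ∈ NoJ τ.1) (hB : B ∈ NoJ σ.1) (hB2 : B ∈ NoJ τ.1)
    (h : oA k L σ' l' (t2A k L σ l τ r A) ∈ NoJ σ'.1)
    (h2 : oB k L σ' l' (t2B k L σ l τ r B) ∈ NoJ σ'.1) : False := by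
  have e1 : t2A k L σ l τ r A = (oA k L σ' l' (t2A k L σ l τ r A))⁻¹ * as k L σ' l' := by
    simp only [oA]; group
  have e2 : t2B k L σ l τ r B = bs k L σ' l' * (oB k L σ' l' (t2B k L σ l τ r B))⁻¹ := by
    simp only [oB]; group
  generalize (oA k L σ' l' (t2A k L σ l τ r A)) = z at h e1
  generalize (oB k L σ' l' (t2B k L σ l τ r B)) = z' at h2 e2
  by_cases c1 : σ'.1 = τ.1
  · have h3 := congrArg (ex τ.1) e1
    rw [← c1] at hA2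
    rw [← c1] at hστ
    rw [← c1] at h3
    simp only [t2A, ex_mul, ex_inv, ex_NoJ hA2, ex_NoJ h, ex_NoJ (as_NoJ hστ L l),
      ex_NoJ (as_NoJ hστ L r)] at h3
    exact ex_as_ne L σ' hl' (by linarith)
  by_cases c2 : σ'.1 = σ.1
  · have h3 := congrArg (hz σ.1 τ.1) e2
    rw [c2] at h2
    have hY : (bs k L σ l)⁻¹ * B ∈ NoJ τ.1 := mul_mem (inv_mem (bs_NoJ hστ L l)) hB2
    have hb : bs k L σ' l' ∈ NoJ τ.1 := bs_NoJ (by rw [c2]; exact hστ) L l'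
    have hg : gs k L τ ∈ NoJ σ.1 := gs_NoJ (Ne.symm hστ) L
    rw [t2B, hz3 hστ (inv_mem (as_NoJ hστ L r)) hg hY] at h3
    have h4 : hz σ.1 τ.1 (bs k L σ' l' * z'⁻¹) = ex σ.1 (bs k L σ' l') * ex τ.1 z'⁻¹ := by
      have := hz3 hστ (X := bs k L σ' l') (M := z'⁻¹) (Z := 1) hb (inv_mem h2) (one_mem _)
      simpa using this
    rw [h4] at h3
    have h5 : ex τ.1 (gs k L τ) = ex τ.1 z'⁻¹ := by
      have := congrArg (ex τ.1) e2
      rw [t2B, ex_mul, ex_mul, ex_NoJ (inv_mem (as_NoJ hστ L r)), ex_NoJ hY, ex_mul,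
        ex_NoJ hb] at this
      linarith
    have h6 : - ex σ.1 (as k L σ r) - ex σ.1 (bs k L σ l) = ex σ.1 (bs k L σ' l') := by
      have := congrArg (ex σ.1) e2
      rw [t2B, ex_mul, ex_mul, ex_mul, ex_NoJ hg, ex_NoJ hB, ex_inv, ex_inv, ex_mul,
        ex_NoJ (inv_mem h2)] at this
      linarith
    rw [← h5, ← h6, ex_inv] at h3
    have h9 : ex σ.1 (bs k L σ l) * ex τ.1 (gs k L τ) = 0 := by linarith
    exact mul_ne_zero (ex_bs_ne L σ hl) (ex_gs_ne L τ) h9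
  · exact lemG (Ne.symm c2) hA (mul_mem (inv_mem (as_NoJ (Ne.symm c2) L l)) (as_NoJ (Ne.symm c2) L r))
      (inv_mem h) (as_NoJ c2 L l') (by rw [← mul_assoc]; exact e1)
      (by
        have := ex_as_sub (k := k) L σ r l
        rw [ex_mul, ex_inv]
        intro h3
        apply hrl
        have : (r : ℤ) - l = 0 := by linarith
        omega)
      (ex_as_ne L σ' hl')

/-- `(I2b)` -/
theorem inv3 (L : ℕ) {σ τ σ' : Sg} {l r l' : ℕ} (hl : l < L) (hr : r < L) (hl' : l' < L)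
    (hrl : r ≠ l) (hστ : σ.1 ≠ τ.1) {A B : Gam k}
    (hA : A ∈ NoJ σ.1) (hA2 : A ∈ NoJ τ.1) (hB : B ∈ NoJ σ.1) (hB2 : B ∈ NoJ τ.1)
    (h : oA k L σ' l' (t3A k L σ l τ r A) ∈ NoJ σ'.1)
    (h2 : oB k L σ' l' (t3B k L σ l τ r B) ∈ NoJ σ'.1) : False := by
  have e1 : t3A k L σ l τ r A = (oA k L σ' l' (t3A k L σ l τ r A))⁻¹ * as k L σ' l' := by
    simp only [oA]; group
  have e2 : t3B k L σ l τ r B = bs k L σ' l' * (oB k L σ' l' (t3B k L σ l τ r B))⁻¹ := by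
    simp only [oB]; group
  generalize (oA k L σ' l' (t3A k L σ l τ r A)) = z at h e1
  generalize (oB k L σ' l' (t3B k L σ l τ r B)) = z' at h2 e2
  by_cases c1 : σ'.1 = τ.1
  · have h3 := congrArg (ex τ.1) e2
    rw [← c1] at hB2
    rw [← c1] at hστ
    rw [← c1] at h3
    simp only [t3B, ex_mul, ex_inv, ex_NoJ hB2, ex_NoJ h2, ex_NoJ (bs_NoJ hστ L l),
      ex_NoJ (bs_NoJ hστ L r)] at h3
    exact ex_bs_ne L σ' hl' (by linarith)
  by_cases c2 : σ'.1 = σ.1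
  · have h3 := congrArg (hz σ.1 τ.1) e1
    rw [c2] at h
    have hX : A * (as k L σ l)⁻¹ ∈ NoJ τ.1 := mul_mem hA2 (inv_mem (as_NoJ hστ L l))
    have ha : as k L σ' l' ∈ NoJ τ.1 := as_NoJ (by rw [c2]; exact hστ) L l'
    have hg : gs k L τ ∈ NoJ σ.1 := gs_NoJ (Ne.symm hστ) L
    rw [t3A, hz3 hστ hX hg (inv_mem (bs_NoJ hστ L r))] at h3
    have h4 : hz σ.1 τ.1 (z⁻¹ * as k L σ' l') = 0 := by
      have := hz3 hστ (X := 1) (M := z⁻¹) (Z := as k L σ' l') (one_mem _) (inv_mem h) ha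
      simpa using this
    rw [h4, ex_mul, ex_NoJ hA, ex_inv] at h3
    have h9 : ex σ.1 (as k L σ l) * ex τ.1 (gs k L τ) = 0 := by linarith
    exact mul_ne_zero (ex_as_ne L σ hl) (ex_gs_ne L τ) h9
  · refine lemG' (Ne.symm c2) (X := B) (p := bs k L σ r * (bs k L σ l)⁻¹) hB
      (mul_mem (bs_NoJ (Ne.symm c2) L r) (inv_mem (bs_NoJ (Ne.symm c2) L l)))
      (inv_mem h2) (bs_NoJ c2 L l') (by rw [mul_assoc]; exact e2) ?_
      (ex_bs_ne L σ' hl')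
    have := ex_bs_sub (k := k) L σ r l
    rw [ex_mul, ex_inv]
    intro h3
    apply hrl
    have : (l : ℤ) - r = 0 := by linarith
    omega

theorem bef_ne {σ : Sg} {r l : ℕ} (h : bef σ r l) : r ≠ l := by
  intro h'; subst h'; unfold bef at h; split_ifs at h <;> omega

theorem bef_sign {σ σ' : Sg} {r l r' l' : ℕ} (h : bef σ r l) (h' : bef σ' r' l')
    (e : (r : ℤ) - l = r' - l') : σ.2 = σ'.2 := by
  rcases σ with ⟨j, b⟩
  rcases σ' with ⟨j', b'⟩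
  cases b <;> cases b' <;> simp [bef] at h h' ⊢ <;> omega

theorem gs_sign (L : ℕ) {j : ℕ} {b b' : Bool}
    (h : ex j (gs k L (j, b)) = ex j (gs k L (j, b'))) : b = b' := by
  have h1 := ex_gs (k := k) L (j, b)
  have h2 := ex_gs (k := k) L (j, b')
  simp only at h1 h2
  rw [h1, h2] at h
  cases b <;> cases b' <;> simp [es] at h ⊢ <;> omega

/-- injectivity of `K2a` -/
theorem inj2 (L : ℕ) {σ τ σ' τ' : Sg} {l r l' r' : ℕ} (hl : l < L) (hr : r < L)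
    (hr' : r' < L) (hb : bef σ r l) (hb' : bef σ' r' l') {A B A' B' : Gam k}
    (hστ : σ.1 ≠ τ.1) (hστ' : σ'.1 ≠ τ'.1)
    (hA : A ∈ NoJ σ.1) (hB : B ∈ NoJ σ.1) (hB2 : B ∈ NoJ τ.1)
    (hA' : A' ∈ NoJ σ'.1) (hB' : B' ∈ NoJ σ'.1) (hB2' : B' ∈ NoJ τ'.1)
    (h : t2A k L σ l τ r A = t2A k L σ' l' τ' r' A')
    (h2 : t2B k L σ l τ r B = t2B k L σ' l' τ' r' B') :
    σ = σ' ∧ l = l' ∧ τ = τ' ∧ r = r' ∧ A = A' ∧ B = B' := by
  have hs := ex_as_sub (k := k) L σ r l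
  have hs' := ex_as_sub (k := k) L σ' r' l'
  have hn := bef_ne hb
  have hn' := bef_ne hb'
  -- the indices of `σ` agree
  have c1 : σ.1 = σ'.1 := by
    by_contra c1
    refine lemG c1 (X := A) (p := (as k L σ l)⁻¹ * as k L σ r) hA
      (mul_mem (inv_mem (as_NoJ c1 L l)) (as_NoJ c1 L r)) hA'
      (mul_mem (inv_mem (as_NoJ (Ne.symm c1) L l')) (as_NoJ (Ne.symm c1) L r'))
      (by rw [← mul_assoc, ← mul_assoc]; exact h) ?_ ?_
    · rw [ex_mul, ex_inv]; intro h3; apply hn; have : (r : ℤ) - l = 0 := by linarith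
      omega
    · rw [ex_mul, ex_inv]; intro h3; apply hn'; have : (r' : ℤ) - l' = 0 := by linarith
      omega
  have c2 : (r : ℤ) - l = r' - l' := by
    have h3 := congrArg (ex σ.1) h
    have hA'' := hA'
    rw [← c1] at hA''
    have hs'' := hs'
    rw [← c1] at hs''
    simp only [t2A, ex_mul, ex_inv, ex_NoJ hA, ex_NoJ hA''] at h3
    linarith
  have c3 : σ.2 = σ'.2 := bef_sign hb hb' c2
  have c4 : σ = σ' := Prod.ext c1 c3
  subst c4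
  -- the indices of `τ` agree
  have hY : (bs k L σ l)⁻¹ * B ∈ NoJ τ.1 := mul_mem (inv_mem (bs_NoJ hστ L l)) hB2
  have hg : gs k L τ ∈ NoJ σ.1 := gs_NoJ (Ne.symm hστ) L
  have hg' : gs k L τ' ∈ NoJ σ.1 := gs_NoJ (Ne.symm hστ') L
  have q1 : ex τ.1 (t2B k L σ l τ r B) = ex τ.1 (gs k L τ) := by
    rw [t2B, ex_mul, ex_mul, ex_NoJ (inv_mem (as_NoJ hστ L r)), ex_NoJ hY]; ring
  have q2 : ex σ.1 (t2B k L σ l τ r B) = - ex σ.1 (as k L σ r) - ex σ.1 (bs k L σ l) := by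
    rw [t2B, ex_mul, ex_mul, ex_mul, ex_NoJ hg, ex_NoJ hB, ex_inv, ex_inv]; ring
  have q2' : ex σ.1 (t2B k L σ l' τ' r' B') =
      - ex σ.1 (as k L σ r') - ex σ.1 (bs k L σ l') := by
    rw [t2B, ex_mul, ex_mul, ex_mul, ex_NoJ hg', ex_NoJ hB', ex_inv, ex_inv]; ring
  have q3 : hz σ.1 τ.1 (t2B k L σ l τ r B) = - ex σ.1 (as k L σ r) * ex τ.1 (gs k L τ) := by
    rw [t2B, hz3 hστ (inv_mem (as_NoJ hστ L r)) hg hY, ex_inv]
  have c5 : τ.1 = τ'.1 := by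
    by_contra c5
    have q3' : hz σ.1 τ.1 (t2B k L σ l' τ' r' B') =
        (- ex σ.1 (as k L σ r') - ex σ.1 (bs k L σ l')) * ex τ.1 (t2B k L σ l' τ' r' B') := by
      have hX : (as k L σ r')⁻¹ * gs k L τ' * (bs k L σ l')⁻¹ ∈ NoJ τ.1 :=
        mul_mem (mul_mem (inv_mem (as_NoJ hστ L r')) (gs_NoJ (Ne.symm c5) L))
          (inv_mem (bs_NoJ hστ L l'))
      have e : t2B k L σ l' τ' r' B' =
          ((as k L σ r')⁻¹ * gs k L τ' * (bs k L σ l')⁻¹) * B' * 1 := by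
        simp only [t2B]; group
      have eX : ex τ.1 ((as k L σ r')⁻¹ * gs k L τ' * (bs k L σ l')⁻¹ * B' * 1) = ex τ.1 B' := by
        rw [mul_one, ex_mul, ex_NoJ hX, zero_add]
      rw [e, hz3 hστ hX hB' (one_mem _), eX]
      rw [ex_mul, ex_mul, ex_inv, ex_NoJ hg', ex_inv]
      ring
    rw [← h2, q3, q1, ← q2', ← h2, q2] at q3'
    have h9 : ex σ.1 (bs k L σ l) * ex τ.1 (gs k L τ) = 0 := by linarith
    exact mul_ne_zero (ex_bs_ne L σ hl) (ex_gs_ne L τ) h9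
  have hB2'' := hB2'
  rw [← c5] at hB2''
  have hY' : (bs k L σ l')⁻¹ * B' ∈ NoJ τ.1 := mul_mem (inv_mem (bs_NoJ hστ L l')) hB2''
  have q1' : ex τ.1 (t2B k L σ l' τ' r' B') = ex τ.1 (gs k L τ') := by
    rw [t2B, ex_mul, ex_mul, ex_NoJ (inv_mem (as_NoJ hστ L r')), ex_NoJ hY']; ring
  have q3' : hz σ.1 τ.1 (t2B k L σ l' τ' r' B') = - ex σ.1 (as k L σ r') * ex τ.1 (gs k L τ') := by
    rw [t2B, hz3 hστ (inv_mem (as_NoJ hστ L r')) hg' hY', ex_inv]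
  have c6 : ex τ.1 (gs k L τ) = ex τ.1 (gs k L τ') := by rw [← q1, h2, q1']
  have c7 : ex σ.1 (as k L σ r) = ex σ.1 (as k L σ r') := by
    have := q3.symm.trans ((congrArg (hz σ.1 τ.1) h2).trans q3')
    rw [← c6] at this
    have h8 := mul_right_cancel₀ (ex_gs_ne L τ (k := k)) this
    linarith
  have c8 : r = r' := (ex_as_inj L σ.1 (b := σ.2) (b' := σ.2) hr hr' c7).2
  subst c8
  have c9 : l = l' := by omega
  subst c9
  have c10 : τ.2 = τ'.2 := by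
    rcases τ with ⟨j, b⟩
    rcases τ' with ⟨j', b'⟩
    simp only at c5 c6 ⊢
    subst c5
    exact gs_sign L c6
  have c11 : τ = τ' := Prod.ext c5 c10
  subst c11
  refine ⟨rfl, rfl, rfl, rfl, ?_, ?_⟩
  · exact mul_right_cancel (mul_right_cancel h)
  · exact mul_left_cancel (mul_left_cancel h2)

/-- injectivity of `K2b` -/
theorem inj3 (L : ℕ) {σ τ σ' τ' : Sg} {l r l' r' : ℕ} (hl : l < L)
    (hl' : l' < L) (hb : bef (op σ) r l) (hb' : bef (op σ') r' l') {A B A' B' : Gam k}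
    (hστ : σ.1 ≠ τ.1) (hστ' : σ'.1 ≠ τ'.1)
    (hA : A ∈ NoJ σ.1) (hA2 : A ∈ NoJ τ.1) (hB : B ∈ NoJ σ.1)
    (hA' : A' ∈ NoJ σ'.1) (hA2' : A' ∈ NoJ τ'.1) (hB' : B' ∈ NoJ σ'.1)
    (h : t3A k L σ l τ r A = t3A k L σ' l' τ' r' A')
    (h2 : t3B k L σ l τ r B = t3B k L σ' l' τ' r' B') :
    σ = σ' ∧ l = l' ∧ τ = τ' ∧ r = r' ∧ A = A' ∧ B = B' := by
  have hs := ex_bs_sub (k := k) L σ r l
  have hs' := ex_bs_sub (k := k) L σ' r' l'
  have hn := bef_ne hb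
  have hn' := bef_ne hb'
  have c1 : σ.1 = σ'.1 := by
    by_contra c1
    refine lemG' c1 (X := B) (p := bs k L σ r * (bs k L σ l)⁻¹) hB
      (mul_mem (bs_NoJ c1 L r) (inv_mem (bs_NoJ c1 L l))) hB'
      (mul_mem (bs_NoJ (Ne.symm c1) L r') (inv_mem (bs_NoJ (Ne.symm c1) L l')))
      (by rw [mul_assoc, mul_assoc]; exact h2) ?_ ?_
    · rw [ex_mul, ex_inv]; intro h3; apply hn; have : (l : ℤ) - r = 0 := by linarith
      omega
    · rw [ex_mul, ex_inv]; intro h3; apply hn'; have : (l' : ℤ) - r' = 0 := by linarith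
      omega
  have c2 : (r : ℤ) - l = r' - l' := by
    have h3 := congrArg (ex σ.1) h2
    have hB'' := hB'
    rw [← c1] at hB''
    have hs'' := hs'
    rw [← c1] at hs''
    simp only [t3B, ex_mul, ex_inv, ex_NoJ hB, ex_NoJ hB''] at h3
    linarith
  have c3 : σ.2 = σ'.2 := by
    have := bef_sign hb hb' c2
    simpa [op] using this
  have c4 : σ = σ' := Prod.ext c1 c3
  subst c4
  have hX : A * (as k L σ l)⁻¹ ∈ NoJ τ.1 := mul_mem hA2 (inv_mem (as_NoJ hστ L l))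
  have hg : gs k L τ ∈ NoJ σ.1 := gs_NoJ (Ne.symm hστ) L
  have hg' : gs k L τ' ∈ NoJ σ.1 := gs_NoJ (Ne.symm hστ') L
  have q1 : ex τ.1 (t3A k L σ l τ r A) = ex τ.1 (gs k L τ) := by
    rw [t3A, ex_mul, ex_mul, ex_NoJ hX, ex_NoJ (inv_mem (bs_NoJ hστ L r))]; ring
  have q3 : hz σ.1 τ.1 (t3A k L σ l τ r A) = - ex σ.1 (as k L σ l) * ex τ.1 (gs k L τ) := by
    rw [t3A, hz3 hστ hX hg (inv_mem (bs_NoJ hστ L r)), ex_mul, ex_NoJ hA, ex_inv, zero_add]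
  have c5 : τ.1 = τ'.1 := by
    by_contra c5
    have q3' : hz σ.1 τ.1 (t3A k L σ l' τ' r' A') = 0 := by
      have hZ : (as k L σ l')⁻¹ * gs k L τ' * (bs k L σ r')⁻¹ ∈ NoJ τ.1 :=
        mul_mem (mul_mem (inv_mem (as_NoJ hστ L l')) (gs_NoJ (Ne.symm c5) L))
          (inv_mem (bs_NoJ hστ L r'))
      have e : t3A k L σ l' τ' r' A' =
          1 * A' * ((as k L σ l')⁻¹ * gs k L τ' * (bs k L σ r')⁻¹) := by
        simp only [t3A]; group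
      rw [e, hz3 hστ (one_mem _) hA' hZ, ex_one, zero_mul]
    rw [← h, q3] at q3'
    have h9 : ex σ.1 (as k L σ l) * ex τ.1 (gs k L τ) = 0 := by linarith
    exact mul_ne_zero (ex_as_ne L σ hl) (ex_gs_ne L τ) h9
  have hA2'' := hA2'
  rw [← c5] at hA2''
  have hX' : A' * (as k L σ l')⁻¹ ∈ NoJ τ.1 := mul_mem hA2'' (inv_mem (as_NoJ hστ L l'))
  have q1' : ex τ.1 (t3A k L σ l' τ' r' A') = ex τ.1 (gs k L τ') := by
    rw [t3A, ex_mul, ex_mul, ex_NoJ hX', ex_NoJ (inv_mem (bs_NoJ hστ L r'))]; ring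
  have q3' : hz σ.1 τ.1 (t3A k L σ l' τ' r' A') =
      - ex σ.1 (as k L σ l') * ex τ.1 (gs k L τ') := by
    rw [t3A, hz3 hστ hX' hg' (inv_mem (bs_NoJ hστ L r')), ex_mul, ex_NoJ hA', ex_inv, zero_add]
  have c6 : ex τ.1 (gs k L τ) = ex τ.1 (gs k L τ') := by rw [← q1, h, q1']
  have c7 : ex σ.1 (as k L σ l) = ex σ.1 (as k L σ l') := by
    have := q3.symm.trans ((congrArg (hz σ.1 τ.1) h).trans q3')
    rw [← c6] at this
    have h8 := mul_right_cancel₀ (ex_gs_ne L τ (k := k)) this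
    linarith
  have c8 : l = l' := (ex_as_inj L σ.1 (b := σ.2) (b' := σ.2) hl hl' c7).2
  subst c8
  have c9 : r = r' := by omega
  subst c9
  have c10 : τ.2 = τ'.2 := by
    rcases τ with ⟨j, b⟩
    rcases τ' with ⟨j', b'⟩
    simp only at c5 c6 ⊢
    subst c5
    exact gs_sign L c6
  have c11 : τ = τ' := Prod.ext c5 c10
  subst c11
  refine ⟨rfl, rfl, rfl, rfl, ?_, ?_⟩
  · exact mul_right_cancel (mul_right_cancel (mul_right_cancel h))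
  · exact mul_left_cancel (mul_left_cancel h2)

end

end Pool.Agent.H146FF
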