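import Mathlib

/-! Squared `ℓ²` norm of finitely supported functions and a Schur test. -/

namespace Pool.Agent.H146FF

section

variable {α β κ : Type}

/-- squared `ℓ²` norm -/
noncomputable def nsq (f : α →₀ ℝ) : ℝ := f.sum (fun _ a => a ^ 2)

/-- `ℓ²` norm -/
noncomputable def nrm (f : α →₀ ℝ) : ℝ := Real.sqrt (nsq f)

theorem nsq_nonneg (f : α →₀ ℝ) : 0 ≤ nsq f := Finset.sum_nonneg (fun _ _ => sq_nonneg _)

theorem nrm_nonneg (f : α →₀ ℝ) : 0 ≤ nrm f := Real.sqrt_nonneg _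

theorem nrm_sq (f : α →₀ ℝ) : nrm f ^ 2 = nsq f := Real.sq_sqrt (nsq_nonneg f)

theorem nsq_eq_of_subset (f : α →₀ ℝ) {s : Finset α} (h : f.support ⊆ s) :
    nsq f = ∑ x ∈ s, f x ^ 2 := by
  unfold nsq
  exact Finsupp.sum_of_support_subset f h _ (fun _ _ => by simp)

theorem nrm_zero : nrm (0 : α →₀ ℝ) = 0 := by simp [nrm, nsq]

theorem nrm_smul (c : ℝ) (f : α →₀ ℝ) : nrm (c • f) = |c| * nrm f := by
  classical
  unfold nrm
  have h1 : nsq (c • f) = c ^ 2 * nsq f := by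
    rw [nsq_eq_of_subset (c • f) (s := f.support) Finsupp.support_smul,
      nsq_eq_of_subset f (s := f.support) subset_rfl, Finset.mul_sum]
    apply Finset.sum_congr rfl
    intro x _
    simp only [Finsupp.smul_apply, smul_eq_mul]; ring
  rw [h1, Real.sqrt_mul (sq_nonneg c), Real.sqrt_sq_eq_abs]

theorem nrm_neg (f : α →₀ ℝ) : nrm (-f) = nrm f := by
  have := nrm_smul (-1) f
  simpa using this

theorem nrm_add_le (f g : α →₀ ℝ) : nrm (f + g) ≤ nrm f + nrm g := by
  classical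
  set s := f.support ∪ g.support with hs
  have h1 : nsq f = ∑ x ∈ s, f x ^ 2 := nsq_eq_of_subset f Finset.subset_union_left
  have h2 : nsq g = ∑ x ∈ s, g x ^ 2 := nsq_eq_of_subset g Finset.subset_union_right
  have h3 : nsq (f + g) = ∑ x ∈ s, (f x + g x) ^ 2 := by
    rw [nsq_eq_of_subset (f + g) (s := s) Finsupp.support_add]
    rfl
  have h4 : (∑ x ∈ s, f x * g x) ^ 2 ≤ nsq f * nsq g := by
    rw [h1, h2]; exact Finset.sum_mul_sq_le_sq_mul_sq s _ _
  have h5 : ∑ x ∈ s, f x * g x ≤ nrm f * nrm g := by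
    have : Real.sqrt ((∑ x ∈ s, f x * g x) ^ 2) ≤ Real.sqrt (nsq f * nsq g) :=
      Real.sqrt_le_sqrt h4
    rw [Real.sqrt_sq_eq_abs, Real.sqrt_mul (nsq_nonneg f)] at this
    exact (le_abs_self _).trans this
  have h6 : nsq (f + g) ≤ (nrm f + nrm g) ^ 2 := by
    have : nsq (f + g) = nsq f + 2 * (∑ x ∈ s, f x * g x) + nsq g := by
      rw [h3, h1, h2, Finset.mul_sum, ← Finset.sum_add_distrib, ← Finset.sum_add_distrib]
      apply Finset.sum_congr rfl
      intro x _; ring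
    rw [this, add_sq, nrm_sq, nrm_sq]
    linarith
  calc nrm (f + g) = Real.sqrt (nsq (f + g)) := rfl
    _ ≤ Real.sqrt ((nrm f + nrm g) ^ 2) := Real.sqrt_le_sqrt h6
    _ = nrm f + nrm g := Real.sqrt_sq (add_nonneg (nrm_nonneg f) (nrm_nonneg g))

theorem nrm_sum_le {ι : Type} (s : Finset ι) (f : ι → (α →₀ ℝ)) :
    nrm (∑ i ∈ s, f i) ≤ ∑ i ∈ s, nrm (f i) := by
  classical
  induction s using Finset.induction_on with
  | empty => simp [nrm_zero]
  | insert i s hi ih =>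
    rw [Finset.sum_insert hi, Finset.sum_insert hi]
    exact (nrm_add_le _ _).trans (add_le_add le_rfl ih)

/-- the operator `δ_a ↦ ∑_{κ ∈ F a} c a κ • δ_{π a κ}` -/
noncomputable def opr (F : α → Finset κ) (π : α → κ → β) (c : α → κ → ℝ) :
    (α →₀ ℝ) →ₗ[ℝ] (β →₀ ℝ) :=
  Finsupp.linearCombination ℝ (fun a => ∑ q ∈ F a, Finsupp.single (π a q) (c a q))

theorem opr_single (F : α → Finset κ) (π : α → κ → β) (c : α → κ → ℝ) (a : α) (t : ℝ) :
    opr F π c (Finsupp.single a t) = t • ∑ q ∈ F a, Finsupp.single (π a q) (c a q) := by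
  simp [opr]

theorem opr_apply (F : α → Finset κ) (π : α → κ → β) (c : α → κ → ℝ) (f : α →₀ ℝ) :
    opr F π c f = ∑ p ∈ f.support.sigma F, Finsupp.single (π p.1 p.2) (f p.1 * c p.1 p.2) := by
  rw [Finset.sum_sigma, opr, Finsupp.linearCombination_apply, Finsupp.sum]
  apply Finset.sum_congr rfl
  intro a _
  rw [Finset.smul_sum]
  apply Finset.sum_congr rfl
  intro q _
  simp

theorem opr_support [DecidableEq β] (F : α → Finset κ) (π : α → κ → β) (c : α → κ → ℝ) (f : α →₀ ℝ) {b : β}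
    (hb : b ∈ (opr F π c f).support) : ∃ a ∈ f.support, ∃ q ∈ F a, π a q = b := by
  rw [opr_apply] at hb
  have h1 := Finsupp.support_finsetSum hb
  rw [Finset.mem_biUnion] at h1
  obtain ⟨p, hp, h2⟩ := h1
  have h3 := Finsupp.support_single_subset h2
  rw [Finset.mem_sigma] at hp
  exact ⟨p.1, hp.1, p.2, hp.2, (Finset.mem_singleton.1 h3).symm⟩

/-- Schur test -/
theorem schur [DecidableEq β] (F : α → Finset κ) (π : α → κ → β) (c : α → κ → ℝ) (f : α →₀ ℝ) (M C : ℝ)
    (hM0 : 0 ≤ M)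
    (hM : ∀ b, (((f.support.sigma F).filter (fun p => π p.1 p.2 = b)).card : ℝ) ≤ M)
    (hC : ∀ a ∈ f.support, ∑ q ∈ F a, c a q ^ 2 ≤ C) :
    nsq (opr F π c f) ≤ M * C * nsq f := by
  set P := f.support.sigma F with hP
  set I := P.image (fun p => π p.1 p.2) with hI
  have h0 : ∀ b, (opr F π c f) b = ∑ p ∈ P.filter (fun p => π p.1 p.2 = b), f p.1 * c p.1 p.2 := by
    intro b
    rw [opr_apply, Finsupp.finset_sum_apply, Finset.sum_filter]
    apply Finset.sum_congr rfl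
    intro p _
    rw [Finsupp.single_apply]
  have h1 : (opr F π c f).support ⊆ I := by
    intro b hb
    obtain ⟨a, ha, q, hq, h⟩ := opr_support F π c f hb
    exact Finset.mem_image.2 ⟨⟨a, q⟩, Finset.mem_sigma.2 ⟨ha, hq⟩, h⟩
  calc nsq (opr F π c f) = ∑ b ∈ I, ((opr F π c f) b) ^ 2 := nsq_eq_of_subset _ h1
    _ ≤ ∑ b ∈ I, M * ∑ p ∈ P.filter (fun p => π p.1 p.2 = b), (f p.1 * c p.1 p.2) ^ 2 := by
        apply Finset.sum_le_sum
        intro b _
        rw [h0 b]
        refine sq_sum_le_card_mul_sum_sq.trans ?_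
        exact mul_le_mul_of_nonneg_right (hM b) (Finset.sum_nonneg (fun _ _ => sq_nonneg _))
    _ = M * ∑ p ∈ P, (f p.1 * c p.1 p.2) ^ 2 := by
        rw [← Finset.mul_sum]
        congr 1
        exact Finset.sum_fiberwise_of_maps_to
          (fun p hp => Finset.mem_image.2 ⟨p, hp, rfl⟩) _
    _ = M * ∑ a ∈ f.support, f a ^ 2 * ∑ q ∈ F a, c a q ^ 2 := by
        rw [hP, Finset.sum_sigma]
        congr 1
        apply Finset.sum_congr rfl
        intro a _
        rw [Finset.mul_sum]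
        apply Finset.sum_congr rfl
        intro q _
        ring
    _ ≤ M * ∑ a ∈ f.support, f a ^ 2 * C := by
        apply mul_le_mul_of_nonneg_left _ hM0
        apply Finset.sum_le_sum
        intro a ha
        exact mul_le_mul_of_nonneg_left (hC a ha) (sq_nonneg _)
    _ = M * C * nsq f := by
        rw [← Finset.sum_mul, nsq, Finsupp.sum]; ring

/-- Schur test, injective case -/
theorem schur1 [DecidableEq β] (F : α → Finset κ) (π : α → κ → β) (c : α → κ → ℝ) (f : α →₀ ℝ) (C : ℝ)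
    (hM : ∀ a ∈ f.support, ∀ q ∈ F a, ∀ a' ∈ f.support, ∀ q' ∈ F a', π a q = π a' q' →
      a = a' ∧ q = q')
    (hC : ∀ a ∈ f.support, ∑ q ∈ F a, c a q ^ 2 ≤ C) :
    nsq (opr F π c f) ≤ C * nsq f := by
  have := schur F π c f 1 C zero_le_one ?_ hC
  · simpa using this
  · intro b
    norm_cast
    rw [Finset.card_le_one]
    rintro ⟨a, q⟩ h ⟨a', q'⟩ h'
    simp only [Finset.mem_filter, Finset.mem_sigma] at h h'
    obtain ⟨h1, h2⟩ := hM a h.1.1 q h.1.2 a' h'.1.1 q' h'.1.2 (h.2.trans h'.2.symm)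
    subst h1; subst h2; rfl

end

end Pool.Agent.H146FF
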