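import Mathlib
import Pool.Agent.H146R2.FF.Inj
import Pool.Agent.H146R2.FF.Schur

/-! The operators `T = M + Y + R` and `K = K₁ + K₂ + K₃`. -/

namespace Pool.Agent.H146FF

open Finset

section

variable {k : ℕ} [NeZero k]

/-- basis elements `e_{i,(A,B)}` -/
abbrev E (k : ℕ) : Type := Fin k × Gam k × Gam k
abbrev O (k : ℕ) : Type := Gam k × Gam k

/-- all letters `(σ, l)` -/
def LI (L J : ℕ) : Finset (Sg × ℕ) := ((range J ×ˢ univ) ×ˢ range L)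

theorem mem_LI {L J : ℕ} {p : Sg × ℕ} : p ∈ LI L J ↔ p.1.1 < J ∧ p.2 < L := by
  simp [LI]

open Classical in
/-- letters of the right colour -/
noncomputable def FT (k : ℕ) [NeZero k] (L J : ℕ) (e : E k) : Finset (Sg × ℕ) :=
  (LI L J).filter (fun p => col k p.2 = e.1)

def out (k : ℕ) [NeZero k] (L : ℕ) (e : E k) (p : Sg × ℕ) : O k :=
  (oA k L p.1 p.2 e.2.1, oB k L p.1 p.2 e.2.2)

/-- `j` does not occur in `(A, B)` -/
def Fr (e : E k) (j : ℕ) : Prop := e.2.1 ∈ NoJ j ∧ e.2.2 ∈ NoJ j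

/-- the index of the letter does not occur in the outcome -/
def Inv (L : ℕ) (e : E k) (p : Sg × ℕ) : Prop :=
  (out k L e p).1 ∈ NoJ p.1.1 ∧ (out k L e p).2 ∈ NoJ p.1.1

open Classical in
noncomputable def FM (k : ℕ) [NeZero k] (L J : ℕ) (e : E k) : Finset (Sg × ℕ) :=
  (FT k L J e).filter (fun p => Inv L e p)
open Classical in
noncomputable def FY (k : ℕ) [NeZero k] (L J : ℕ) (e : E k) : Finset (Sg × ℕ) :=
  (FT k L J e).filter (fun p => Fr e p.1.1)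
open Classical in
noncomputable def FR (k : ℕ) [NeZero k] (L J : ℕ) (e : E k) : Finset (Sg × ℕ) :=
  (FT k L J e).filter (fun p => ¬ Inv L e p ∧ ¬ Fr e p.1.1)

theorem not_inv_of_fr {L J : ℕ} {e : E k} {p : Sg × ℕ} (hp : p ∈ LI L J) (h : Fr e p.1.1) :
    ¬ Inv L e p := by
  intro h2
  have h3 := ex_NoJ h2.1
  simp only [out, oA, ex_mul, ex_inv, ex_NoJ h.1] at h3
  exact ex_as_ne L p.1 (mem_LI.1 hp).2 (by linarith)

/-- the coefficient of `T` -/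
noncomputable def cT (s : ℝ) (_e : E k) (p : Sg × ℕ) : ℝ := s * (es p.1 : ℝ)

noncomputable def opT (k : ℕ) [NeZero k] (L J : ℕ) (s : ℝ) : (E k →₀ ℝ) →ₗ[ℝ] (O k →₀ ℝ) :=
  opr (FT k L J) (out k L) (cT s)
noncomputable def opM (k : ℕ) [NeZero k] (L J : ℕ) (s : ℝ) : (E k →₀ ℝ) →ₗ[ℝ] (O k →₀ ℝ) :=
  opr (FM k L J) (out k L) (cT s)
noncomputable def opY (k : ℕ) [NeZero k] (L J : ℕ) (s : ℝ) : (E k →₀ ℝ) →ₗ[ℝ] (O k →₀ ℝ) :=
  opr (FY k L J) (out k L) (cT s)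
noncomputable def opR (k : ℕ) [NeZero k] (L J : ℕ) (s : ℝ) : (E k →₀ ℝ) →ₗ[ℝ] (O k →₀ ℝ) :=
  opr (FR k L J) (out k L) (cT s)

theorem opT_eq (L J : ℕ) (s : ℝ) (f : E k →₀ ℝ) :
    opT k L J s f = opM k L J s f + opY k L J s f + opR k L J s f := by
  classical
  induction f using Finsupp.induction_linear with
  | zero => simp
  | add f g hf hg => rw [map_add, map_add, map_add, map_add, hf, hg]; abel
  | single e t =>
    rw [opT, opM, opY, opR, opr_single, opr_single, opr_single, opr_single, ← smul_add,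
      ← smul_add]
    congr 1
    rw [FM, FY, FR, sum_filter, sum_filter, sum_filter, ← sum_add_distrib, ← sum_add_distrib]
    apply sum_congr rfl
    intro p hp
    have hp' : p ∈ LI L J := (mem_filter.1 hp).1
    by_cases h1 : Inv L e p
    · have h2 : ¬ Fr e p.1.1 := fun h => not_inv_of_fr hp' h h1
      simp [h1, h2]
    · by_cases h2 : Fr e p.1.1 <;> simp [h1, h2]

/-- number of fresh indices -/
noncomputable def nf (J : ℕ) (e : E k) : ℕ := by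
  classical exact ((range J).filter (fun j => Fr e j)).card

/-- `N(e) = 2 (nf - 1)` -/
noncomputable def NN (J : ℕ) (e : E k) : ℝ := 2 * ((nf J e : ℝ) - 1)

open Classical in
/-- letters with a second fresh index -/
noncomputable def FS (k : ℕ) [NeZero k] (L J : ℕ) (e : E k) (j : ℕ) : Finset (Sg × ℕ) :=
  (LI L J).filter (fun q => Fr e q.1.1 ∧ q.1.1 ≠ j)

open Classical in
/-- the index set of `K₁` -/
noncomputable def FK (k : ℕ) [NeZero k] (L J : ℕ) (e : E k) : Finset ((Sg × ℕ) × (Sg × ℕ)) :=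
  (FY k L J e).biUnion (fun p => (FS k L J e p.1.1).image (fun q => (p, q)))

theorem mem_FK {L J : ℕ} {e : E k} {x : (Sg × ℕ) × (Sg × ℕ)} :
    x ∈ FK k L J e ↔ x.1 ∈ FY k L J e ∧ x.2 ∈ FS k L J e x.1.1.1 := by
  classical
  simp only [FK, mem_biUnion, mem_image]
  constructor
  · rintro ⟨p, hp, q, hq, h⟩
    subst h
    exact ⟨hp, hq⟩
  · rintro ⟨h1, h2⟩
    exact ⟨x.1, h1, x.2, h2, rfl⟩

theorem sum_FK {V : Type} [AddCommMonoid V] (L J : ℕ) (e : E k)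
    (f : (Sg × ℕ) × (Sg × ℕ) → V) :
    ∑ x ∈ FK k L J e, f x = ∑ p ∈ FY k L J e, ∑ q ∈ FS k L J e p.1.1, f (p, q) := by
  classical
  rw [FK, sum_biUnion]
  · apply sum_congr rfl
    intro p _
    rw [sum_image]
    intro a _ b _ h
    exact (Prod.ext_iff.1 h).2
  · intro p _ p' _ hne
    simp only [Function.onFun]
    rw [disjoint_left]
    intro x hx hx'
    rw [mem_image] at hx hx'
    obtain ⟨a, -, ha⟩ := hx
    obtain ⟨b, -, hb⟩ := hx'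
    apply hne
    have := ha.trans hb.symm
    exact (Prod.ext_iff.1 this).1

open Classical in
noncomputable def FK2 (k : ℕ) [NeZero k] (L J : ℕ) (e : E k) : Finset ((Sg × ℕ) × (Sg × ℕ)) :=
  (FK k L J e).filter (fun x => bef x.1.1 x.2.2 x.1.2)
open Classical in
noncomputable def FK3 (k : ℕ) [NeZero k] (L J : ℕ) (e : E k) : Finset ((Sg × ℕ) × (Sg × ℕ)) :=
  (FK k L J e).filter (fun x => bef (op x.1.1) x.2.2 x.1.2)

def pi1 (k : ℕ) [NeZero k] (L : ℕ) (e : E k) (x : (Sg × ℕ) × (Sg × ℕ)) : E k :=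
  (col k x.2.2, t1A k L x.1.1 x.1.2 x.2.1 x.2.2 e.2.1, t1B k L x.1.1 x.1.2 x.2.1 x.2.2 e.2.2)
def pi2 (k : ℕ) [NeZero k] (L : ℕ) (e : E k) (x : (Sg × ℕ) × (Sg × ℕ)) : E k :=
  (col k x.2.2, t2A k L x.1.1 x.1.2 x.2.1 x.2.2 e.2.1, t2B k L x.1.1 x.1.2 x.2.1 x.2.2 e.2.2)
def pi3 (k : ℕ) [NeZero k] (L : ℕ) (e : E k) (x : (Sg × ℕ) × (Sg × ℕ)) : E k :=
  (col k x.2.2, t3A k L x.1.1 x.1.2 x.2.1 x.2.2 e.2.1, t3B k L x.1.1 x.1.2 x.2.1 x.2.2 e.2.2)

noncomputable def c1 (L J : ℕ) (e : E k) (x : (Sg × ℕ) × (Sg × ℕ)) : ℝ :=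
  - ((es x.1.1 : ℝ) * (es x.2.1 : ℝ)) / (NN J e * L)
noncomputable def c2 (L J : ℕ) (e : E k) (_x : (Sg × ℕ) × (Sg × ℕ)) : ℝ :=
  - 1 / (NN J e * ((L : ℝ) - 1))

noncomputable def K1 (k : ℕ) [NeZero k] (L J : ℕ) : (E k →₀ ℝ) →ₗ[ℝ] (E k →₀ ℝ) :=
  opr (FK k L J) (pi1 k L) (c1 L J)
noncomputable def K2 (k : ℕ) [NeZero k] (L J : ℕ) : (E k →₀ ℝ) →ₗ[ℝ] (E k →₀ ℝ) :=
  opr (FK2 k L J) (pi2 k L) (c2 L J)
noncomputable def K3 (k : ℕ) [NeZero k] (L J : ℕ) : (E k →₀ ℝ) →ₗ[ℝ] (E k →₀ ℝ) :=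
  opr (FK3 k L J) (pi3 k L) (c2 L J)
noncomputable def KK (k : ℕ) [NeZero k] (L J : ℕ) : (E k →₀ ℝ) →ₗ[ℝ] (E k →₀ ℝ) :=
  K1 k L J + K2 k L J + K3 k L J

/-- consequences of membership in `FK` -/
theorem FK_facts {L J : ℕ} {e : E k} {x : (Sg × ℕ) × (Sg × ℕ)} (hx : x ∈ FK k L J e) :
    x.1.2 < L ∧ x.2.2 < L ∧ x.1.1.1 < J ∧ x.2.1.1 < J ∧ col k x.1.2 = e.1 ∧ x.1.1.1 ≠ x.2.1.1 ∧
      e.2.1 ∈ NoJ x.1.1.1 ∧ e.2.2 ∈ NoJ x.1.1.1 ∧ e.2.1 ∈ NoJ x.2.1.1 ∧ e.2.2 ∈ NoJ x.2.1.1 := by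
  classical
  obtain ⟨h1, h2⟩ := mem_FK.1 hx
  rw [FY, mem_filter, FT, mem_filter, mem_LI] at h1
  rw [FS, mem_filter, mem_LI] at h2
  exact ⟨h1.1.1.2, h2.1.2, h1.1.1.1, h2.1.1, h1.1.2, Ne.symm h2.2.2, h1.2.1, h1.2.2, h2.2.1.1,
    h2.2.1.2⟩

/-- the main letters of a type 1 element -/
theorem FM_pi1 {L J : ℕ} {e : E k} {x : (Sg × ℕ) × (Sg × ℕ)} (hx : x ∈ FK k L J e) :
    FM k L J (pi1 k L e x) = {x.2} := by
  classical
  obtain ⟨g1, g2, g3, g4, g5, g6, g7, g8, g9, g10⟩ := FK_facts hx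
  ext p
  rw [FM, mem_filter, FT, mem_filter, mem_LI, mem_singleton]
  constructor
  · rintro ⟨⟨⟨h1, h2⟩, h3⟩, h4⟩
    have h5 : oA k L x.1.1 x.1.2 e.2.1 ∈ NoJ x.2.1.1 :=
      mul_mem (as_NoJ g6 L _) (inv_mem g9)
    obtain ⟨e1, e2⟩ := inv1 L g2 h2 h5 h4.1
    exact Prod.ext e1 e2
  · intro h
    subst h
    refine ⟨⟨⟨g4, g2⟩, rfl⟩, ?_⟩
    unfold Inv out pi1
    simp only [oA_t1, oB_t1]
    exact ⟨mul_mem (as_NoJ g6 L _) (inv_mem g9), mul_mem (inv_mem g10) (bs_NoJ g6 L _)⟩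

theorem FM_pi2 {L J : ℕ} {e : E k} {x : (Sg × ℕ) × (Sg × ℕ)} (hx : x ∈ FK2 k L J e) :
    FM k L J (pi2 k L e x) = ∅ := by
  classical
  rw [FK2, mem_filter] at hx
  obtain ⟨g1, g2, g3, g4, g5, g6, g7, g8, g9, g10⟩ := FK_facts hx.1
  rw [Finset.eq_empty_iff_forall_notMem]
  intro p hp
  rw [FM, mem_filter, FT, mem_filter, mem_LI] at hp
  obtain ⟨⟨⟨h1, h2⟩, h3⟩, h4⟩ := hp
  exact inv2 L g1 g2 h2 (bef_ne hx.2) g6 g7 g9 g8 g10 h4.1 h4.2

theorem FM_pi3 {L J : ℕ} {e : E k} {x : (Sg × ℕ) × (Sg × ℕ)} (hx : x ∈ FK3 k L J e) :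
    FM k L J (pi3 k L e x) = ∅ := by
  classical
  rw [FK3, mem_filter] at hx
  obtain ⟨g1, g2, g3, g4, g5, g6, g7, g8, g9, g10⟩ := FK_facts hx.1
  rw [Finset.eq_empty_iff_forall_notMem]
  intro p hp
  rw [FM, mem_filter, FT, mem_filter, mem_LI] at hp
  obtain ⟨⟨⟨h1, h2⟩, h3⟩, h4⟩ := hp
  exact inv3 L g1 g2 h2 (bef_ne hx.2) g6 g7 g9 g8 g10 h4.1 h4.2

/-- cardinality of the set of second letters -/
theorem card_FS {L J : ℕ} {e : E k} {j : ℕ} (hj : j < J) (hf : Fr e j) :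
    ((FS k L J e j).card : ℝ) = NN J e * L := by
  classical
  have h1 : FS k L J e j =
      (((((range J).filter (fun i => Fr e i)).erase j) ×ˢ (univ : Finset Bool)) ×ˢ range L) := by
    ext q
    rw [FS, mem_filter, mem_LI]
    simp only [mem_product, mem_erase, mem_filter, mem_range, mem_univ, and_true]
    tauto
  rw [h1, card_product, card_product, card_erase_of_mem, card_univ, Fintype.card_bool,
    card_range]
  · have h2 : 0 < ((range J).filter (fun i => Fr e i)).card :=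
      card_pos.2 ⟨j, mem_filter.2 ⟨mem_range.2 hj, hf⟩⟩
    rw [NN, nf]
    push_cast [Nat.cast_sub (Nat.succ_le_of_lt h2)]
    ring
  · exact mem_filter.2 ⟨mem_range.2 hj, hf⟩

theorem opM_single (L J : ℕ) (s : ℝ) (e : E k) (t : ℝ) :
    opM k L J s (Finsupp.single e t) =
      t • ∑ p ∈ FM k L J e, Finsupp.single (out k L e p) (s * (es p.1 : ℝ)) :=
  opr_single _ _ _ _ _

/-- **the key cancellation** `M K e = - Y e` -/
theorem opM_KK {L J : ℕ} (hL : 0 < L) (s : ℝ) (e : E k) (hN : NN J e ≠ 0) :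
    opM k L J s (KK k L J (Finsupp.single e 1)) = - opY k L J s (Finsupp.single e 1) := by
  classical
  have hL' : (L : ℝ) ≠ 0 := by positivity
  rw [KK, LinearMap.add_apply, LinearMap.add_apply, map_add, map_add]
  have h2 : opM k L J s (K2 k L J (Finsupp.single e 1)) = 0 := by
    rw [K2, opr_single, one_smul, map_sum]
    apply sum_eq_zero
    intro x hx
    rw [opM_single, FM_pi2 hx]; simp
  have h3 : opM k L J s (K3 k L J (Finsupp.single e 1)) = 0 := by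
    rw [K3, opr_single, one_smul, map_sum]
    apply sum_eq_zero
    intro x hx
    rw [opM_single, FM_pi3 hx]; simp
  rw [h2, h3, add_zero, add_zero, K1, opr_single, one_smul, map_sum, sum_FK, opY, opr_single,
    one_smul, ← sum_neg_distrib]
  apply sum_congr rfl
  intro p hp
  have hp' := hp
  rw [FY, mem_filter, FT, mem_filter, mem_LI] at hp'
  have h4 : ∀ q ∈ FS k L J e p.1.1, opM k L J s (Finsupp.single (pi1 k L e (p, q)) (c1 L J e (p, q)))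
      = Finsupp.single (out k L e p) (- (s * (es p.1 : ℝ)) / (NN J e * L)) := by
    intro q hq
    have hx : (p, q) ∈ FK k L J e := mem_FK.2 ⟨hp, hq⟩
    rw [opM_single, FM_pi1 hx, sum_singleton]
    have h5 : out k L (pi1 k L e (p, q)) q = out k L e p := by
      unfold out pi1
      simp only [oA_t1, oB_t1]
    rw [h5, Finsupp.smul_single, smul_eq_mul]
    congr 1
    unfold c1
    have h6 : (es q.1 : ℝ) * (es q.1 : ℝ) = 1 := by exact_mod_cast es_sq q.1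
    have h7 : (es q.1 : ℝ) ^ 2 = 1 := by rw [sq]; exact h6
    field_simp
    rw [h7]; ring
  rw [sum_congr rfl h4, sum_const, ← Finsupp.single_neg, ← Nat.cast_smul_eq_nsmul ℝ,
    Finsupp.smul_single, card_FS hp'.1.1.1 hp'.2]
  congr 1
  unfold cT
  rw [smul_eq_mul]
  field_simp

end

end Pool.Agent.H146FF
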