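import Mathlib
import Pool.Agent.H146R2.FF.Ops

/-! The divergence functional `b`, the starting element `η₀`, and the element `P`. -/

namespace Pool.Agent.H146FF

open Finset

section

variable {k : ℕ} [NeZero k]

/-- the divergence: `e_{i,(A,B)} ↦ D_i(AB)[A] δ_{AB}` -/
noncomputable def opb (k : ℕ) [NeZero k] : (E k →₀ ℝ) →ₗ[ℝ] (Gam k →₀ ℝ) :=
  Finsupp.linearCombination ℝ (fun e : E k =>
    Finsupp.single (e.2.1 * e.2.2) ((fox (Sum.inr e.1) (e.2.1 * e.2.2) e.2.1 : ℤ) : ℝ))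

theorem opb_single (e : E k) (t : ℝ) :
    opb k (Finsupp.single e t) =
      Finsupp.single (e.2.1 * e.2.2) (t * ((fox (Sum.inr e.1) (e.2.1 * e.2.2) e.2.1 : ℤ) : ℝ)) := by
  simp [opb]

/-- the element `v'` -/
def VV (k : ℕ) [NeZero k] (L : ℕ) (e : E k) (p : Sg × ℕ) (τ : Sg) : Gam k :=
  e.2.1 * (as k L p.1 p.2)⁻¹ * gs k L τ * ((bs k L p.1 p.2)⁻¹ * e.2.2)

open Classical in
noncomputable def FSt (J : ℕ) (e : E k) (j : ℕ) : Finset Sg :=
  (range J ×ˢ (univ : Finset Bool)).filter (fun τ => Fr e τ.1 ∧ τ.1 ≠ j)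

theorem FS_eq (L J : ℕ) (e : E k) (j : ℕ) : FS k L J e j = FSt J e j ×ˢ range L := by
  classical
  ext q
  rw [FS, mem_filter, mem_LI, FSt, mem_product, mem_filter]
  simp only [mem_product, mem_range, mem_univ, and_true]
  tauto

theorem opb_pi1 {L J : ℕ} {e : E k} {x : (Sg × ℕ) × (Sg × ℕ)} (hx : x ∈ FK k L J e) (t : ℝ) :
    opb k (Finsupp.single (pi1 k L e x) t) =
      Finsupp.single (VV k L e x.1 x.2.1) (t * (es x.2.1 : ℝ)) := by
  obtain ⟨g1, g2, g3, g4, g5, g6, g7, g8, g9, g10⟩ := FK_facts hx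
  rw [opb_single]
  have h1 : (pi1 k L e x).2.1 * (pi1 k L e x).2.2 = VV k L e x.1 x.2.1 := t1_prod L _ _ _ _ _ _
  rw [h1]
  congr 2
  have hX : (oA k L x.1.1 x.1.2 e.2.1)⁻¹ ∈ NoJ x.2.1.1 :=
    inv_mem (mul_mem (as_NoJ g6 L _) (inv_mem g9))
  have hY : (oB k L x.1.1 x.1.2 e.2.2)⁻¹ ∈ NoJ x.2.1.1 :=
    inv_mem (mul_mem (inv_mem g10) (bs_NoJ g6 L _))
  have h2 := fox_D1 L x.2.1 g2 hX hY
  have h3 : (oA k L x.1.1 x.1.2 e.2.1)⁻¹ * gs k L x.2.1 * (oB k L x.1.1 x.1.2 e.2.2)⁻¹ =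
      VV k L e x.1 x.2.1 := by
    simp only [oA, oB, VV]; group
  rw [h3] at h2
  exact_mod_cast h2

theorem opb_pi2 {L J : ℕ} {e : E k} {x : (Sg × ℕ) × (Sg × ℕ)} (hx : x ∈ FK k L J e)
    (hb : bef x.1.1 x.2.2 x.1.2) (t : ℝ) :
    opb k (Finsupp.single (pi2 k L e x) t) =
      Finsupp.single (VV k L e x.1 x.2.1) (t * (- (es x.1.1 : ℝ))) := by
  obtain ⟨g1, g2, g3, g4, g5, g6, g7, g8, g9, g10⟩ := FK_facts hx
  rw [opb_single]
  have h1 : (pi2 k L e x).2.1 * (pi2 k L e x).2.2 = VV k L e x.1 x.2.1 := t2_prod L _ _ _ _ _ _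
  rw [h1]
  congr 2
  have h2 := fox_D2a L g6 g1 g2 hb g7 g9 g10
  exact_mod_cast h2

theorem opb_pi3 {L J : ℕ} {e : E k} {x : (Sg × ℕ) × (Sg × ℕ)} (hx : x ∈ FK k L J e)
    (hb : bef (op x.1.1) x.2.2 x.1.2) (t : ℝ) :
    opb k (Finsupp.single (pi3 k L e x) t) =
      Finsupp.single (VV k L e x.1 x.2.1) (t * (- (es x.1.1 : ℝ))) := by
  obtain ⟨g1, g2, g3, g4, g5, g6, g7, g8, g9, g10⟩ := FK_facts hx
  rw [opb_single]
  have h1 : (pi3 k L e x).2.1 * (pi3 k L e x).2.2 = VV k L e x.1 x.2.1 := t3_prod L _ _ _ _ _ _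
  rw [h1]
  congr 2
  have h2 := fox_D2b L g6 g1 g2 hb g9 g8
  exact_mod_cast h2

open Classical in
theorem bef_count (σ : Sg) {L l : ℕ} (hl : l < L) :
    ∑ m ∈ range L, ((if bef σ m l then (1 : ℝ) else 0) + (if bef (op σ) m l then 1 else 0)) =
      (L : ℝ) - 1 := by
  have h1 : ∀ m ∈ range L, ((if bef σ m l then (1 : ℝ) else 0) +
      (if bef (op σ) m l then 1 else 0)) = 1 - (if m = l then 1 else 0) := by
    intro m _
    rcases σ with ⟨j, b⟩
    rcases lt_trichotomy m l with h | h | h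
    · cases b <;> simp [bef, op, h, h.ne, not_lt.2 h.le]
    · subst h; cases b <;> simp [bef, op]
    · cases b <;> simp [bef, op, h, h.ne', not_lt.2 h.le]
  rw [sum_congr rfl h1, sum_sub_distrib]
  simp [hl]

/-- **divergence-freeness of `K e`** -/
theorem opb_KK {L J : ℕ} (hL : 1 < L) (e : E k) :
    opb k (KK k L J (Finsupp.single e 1)) = 0 := by
  classical
  have hL0 : (L : ℝ) ≠ 0 := by positivity
  have hL1 : (L : ℝ) - 1 ≠ 0 := by
    have : (1 : ℝ) < L := by exact_mod_cast hL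
    linarith
  rw [KK, LinearMap.add_apply, LinearMap.add_apply, map_add, map_add]
  have h1 : opb k (K1 k L J (Finsupp.single e 1)) =
      ∑ p ∈ FY k L J e, ∑ τ ∈ FSt J e p.1.1, ∑ m ∈ range L,
        Finsupp.single (VV k L e p τ) (- (es p.1 : ℝ) / (NN J e * L)) := by
    rw [K1, opr_single, one_smul, map_sum]
    rw [sum_congr rfl (fun x hx => opb_pi1 hx _), sum_FK]
    apply sum_congr rfl
    intro p _
    rw [FS_eq, sum_product]
    apply sum_congr rfl
    intro τ _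
    apply sum_congr rfl
    intro m _
    congr 1
    unfold c1
    have h6 : (es τ : ℝ) * (es τ : ℝ) = 1 := by exact_mod_cast es_sq τ
    calc -((es p.1 : ℝ) * (es τ : ℝ)) / (NN J e * L) * (es τ : ℝ) =
        -((es p.1 : ℝ) * ((es τ : ℝ) * (es τ : ℝ))) / (NN J e * L) := by ring
      _ = _ := by rw [h6, mul_one]
  have h2 : opb k (K2 k L J (Finsupp.single e 1)) =
      ∑ p ∈ FY k L J e, ∑ τ ∈ FSt J e p.1.1, ∑ m ∈ range L,
        Finsupp.single (VV k L e p τ) ((if bef p.1 m p.2 then (1 : ℝ) else 0) *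
          ((es p.1 : ℝ) / (NN J e * ((L : ℝ) - 1)))) := by
    rw [K2, opr_single, one_smul, map_sum, FK2, sum_filter]
    have : ∀ x ∈ FK k L J e, (if bef x.1.1 x.2.2 x.1.2 then
        opb k (Finsupp.single (pi2 k L e x) (c2 L J e x)) else 0) =
        Finsupp.single (VV k L e x.1 x.2.1) ((if bef x.1.1 x.2.2 x.1.2 then (1 : ℝ) else 0) *
          ((es x.1.1 : ℝ) / (NN J e * ((L : ℝ) - 1)))) := by
      intro x hx
      by_cases hb : bef x.1.1 x.2.2 x.1.2
      · rw [if_pos hb, if_pos hb, opb_pi2 hx hb]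
        congr 1
        unfold c2
        ring
      · rw [if_neg hb, if_neg hb, zero_mul, Finsupp.single_zero]
    rw [sum_congr rfl this, sum_FK]
    apply sum_congr rfl
    intro p _
    rw [FS_eq, sum_product]
  have h3 : opb k (K3 k L J (Finsupp.single e 1)) =
      ∑ p ∈ FY k L J e, ∑ τ ∈ FSt J e p.1.1, ∑ m ∈ range L,
        Finsupp.single (VV k L e p τ) ((if bef (op p.1) m p.2 then (1 : ℝ) else 0) *
          ((es p.1 : ℝ) / (NN J e * ((L : ℝ) - 1)))) := by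
    rw [K3, opr_single, one_smul, map_sum, FK3, sum_filter]
    have : ∀ x ∈ FK k L J e, (if bef (op x.1.1) x.2.2 x.1.2 then
        opb k (Finsupp.single (pi3 k L e x) (c2 L J e x)) else 0) =
        Finsupp.single (VV k L e x.1 x.2.1) ((if bef (op x.1.1) x.2.2 x.1.2 then (1 : ℝ) else 0) *
          ((es x.1.1 : ℝ) / (NN J e * ((L : ℝ) - 1)))) := by
      intro x hx
      by_cases hb : bef (op x.1.1) x.2.2 x.1.2
      · rw [if_pos hb, if_pos hb, opb_pi3 hx hb]
        congr 1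
        unfold c2
        ring
      · rw [if_neg hb, if_neg hb, zero_mul, Finsupp.single_zero]
    rw [sum_congr rfl this, sum_FK]
    apply sum_congr rfl
    intro p _
    rw [FS_eq, sum_product]
  rw [h1, h2, h3, ← sum_add_distrib, ← sum_add_distrib]
  apply sum_eq_zero
  intro p hp
  rw [← sum_add_distrib, ← sum_add_distrib]
  apply sum_eq_zero
  intro τ _
  rw [FY, mem_filter, FT, mem_filter, mem_LI] at hp
  rw [← sum_add_distrib, ← sum_add_distrib]
  simp only [← Finsupp.single_add]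
  rw [← Finsupp.single_finset_sum]
  rw [Finsupp.single_eq_zero]
  have h4 : ∀ m ∈ range L, (-(es p.1 : ℝ) / (NN J e * L) +
      (if bef p.1 m p.2 then (1 : ℝ) else 0) * ((es p.1 : ℝ) / (NN J e * ((L : ℝ) - 1))) +
      (if bef (op p.1) m p.2 then (1 : ℝ) else 0) * ((es p.1 : ℝ) / (NN J e * ((L : ℝ) - 1)))) =
      -(es p.1 : ℝ) / (NN J e * L) + ((if bef p.1 m p.2 then (1 : ℝ) else 0) +
        (if bef (op p.1) m p.2 then (1 : ℝ) else 0)) *
          ((es p.1 : ℝ) / (NN J e * ((L : ℝ) - 1))) := by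
    intro m _; ring
  rw [sum_congr rfl h4, sum_add_distrib, ← sum_mul, bef_count p.1 hp.1.1.2, sum_const, card_range,
    nsmul_eq_mul]
  by_cases hN : NN J e = 0
  · simp [hN]
  · field_simp
    ring

/-- the starting element -/
noncomputable def eta0 (k : ℕ) [NeZero k] (L J : ℕ) (s : ℝ) : E k →₀ ℝ :=
  ∑ p ∈ LI L J, Finsupp.single ((col k p.2, as k L p.1 p.2, bs k L p.1 p.2) : E k)
    (s * (es p.1 : ℝ) / L)

/-- the element `P` -/
noncomputable def PP (k : ℕ) [NeZero k] (L J : ℕ) (s : ℝ) : Gam k →₀ ℝ :=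
  ∑ σ ∈ (range J ×ˢ (univ : Finset Bool)), Finsupp.single (gs k L σ) s

theorem opb_eta0 {L J : ℕ} (hL : 0 < L) (s : ℝ) : opb k (eta0 k L J s) = PP k L J s := by
  have hL0 : (L : ℝ) ≠ 0 := by positivity
  rw [eta0, map_sum, LI, sum_product, PP]
  apply sum_congr rfl
  intro σ _
  have h1 : ∀ l ∈ range L, opb k (Finsupp.single ((col k l, as k L σ l, bs k L σ l) : E k)
      (s * (es σ : ℝ) / L)) = Finsupp.single (gs k L σ) (s / L) := by
    intro l hl
    rw [opb_single]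
    simp only [as_mul_bs]
    congr 1
    rw [fox_gs_as _ L σ (mem_range.1 hl) rfl]
    have h6 : (es σ : ℝ) * (es σ : ℝ) = 1 := by exact_mod_cast es_sq σ
    calc s * (es σ : ℝ) / L * (es σ : ℝ) = s * ((es σ : ℝ) * (es σ : ℝ)) / L := by ring
      _ = s / L := by rw [h6, mul_one]
  rw [sum_congr rfl h1, ← Finsupp.single_finset_sum, sum_const, card_range, nsmul_eq_mul]
  congr 1
  field_simp

theorem opM_eta0 {L J : ℕ} (hL : 0 < L) (s : ℝ) :
    opM k L J s (eta0 k L J s) = Finsupp.single (1, 1) (s ^ 2 * (2 * J)) := by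
  classical
  have hL0 : (L : ℝ) ≠ 0 := by positivity
  rw [eta0, map_sum]
  have h1 : ∀ p ∈ LI L J, opM k L J s (Finsupp.single
      ((col k p.2, as k L p.1 p.2, bs k L p.1 p.2) : E k) (s * (es p.1 : ℝ) / L)) =
      Finsupp.single ((1, 1) : O k) (s ^ 2 / L) := by
    intro p hp
    rw [opM_single]
    have h2 : FM k L J ((col k p.2, as k L p.1 p.2, bs k L p.1 p.2) : E k) = {p} := by
      ext q
      rw [FM, mem_filter, FT, mem_filter, mem_singleton]
      rw [mem_LI] at hp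
      constructor
      · rintro ⟨⟨h3, h4⟩, h5⟩
        rw [mem_LI] at h3
        have h6 : (oA k L q.1 q.2 (as k L p.1 p.2))⁻¹ * as k L q.1 q.2 = 1 * as k L p.1 p.2 := by
          simp only [oA]; group
        obtain ⟨e1, e2, -⟩ := lemH L h3.2 hp.2 (inv_mem h5.1) (one_mem _) h6
        exact Prod.ext e1 e2
      · intro h; subst h
        refine ⟨⟨mem_LI.2 hp, rfl⟩, ?_⟩
        unfold Inv out
        simp only [oA, oB, mul_inv_cancel, inv_mul_cancel]
        exact ⟨one_mem _, one_mem _⟩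
    rw [h2, sum_singleton, Finsupp.smul_single]
    have h3 : out k L ((col k p.2, as k L p.1 p.2, bs k L p.1 p.2) : E k) p = (1, 1) := by
      unfold out
      simp only [oA, oB, mul_inv_cancel, inv_mul_cancel]
    rw [h3]
    congr 1
    have h6 : (es p.1 : ℝ) * (es p.1 : ℝ) = 1 := by exact_mod_cast es_sq p.1
    rw [smul_eq_mul]
    calc s * (es p.1 : ℝ) / L * (s * (es p.1 : ℝ)) = s ^ 2 * ((es p.1 : ℝ) * (es p.1 : ℝ)) / L := by
          ring
      _ = s ^ 2 / L := by rw [h6, mul_one]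
  rw [sum_congr rfl h1, ← Finsupp.single_finset_sum, sum_const, nsmul_eq_mul]
  congr 1
  rw [LI, card_product, card_product, card_range, card_range, card_univ, Fintype.card_bool]
  push_cast
  field_simp

end

end Pool.Agent.H146FF
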