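import Mathlib
import Pool.Agent.H146R2.FF.Bop

/-! Norm bounds. -/

namespace Pool.Agent.H146FF

open Finset

section

variable {k : ℕ} [NeZero k]

/-- at most `N` indices occur in `e` -/
def Vis (N : ℕ) (e : E k) : Prop := ∃ I : Finset ℕ, I.card ≤ N ∧ ∀ j, j ∉ I → Fr e j

theorem vis_pi {L J N : ℕ} {e : E k} {x : (Sg × ℕ) × (Sg × ℕ)} (hx : x ∈ FK k L J e)
    (hN : Vis N e) :
    Vis (N + 2) (pi1 k L e x) ∧ Vis (N + 2) (pi2 k L e x) ∧ Vis (N + 2) (pi3 k L e x) := by
  classical
  obtain ⟨I, hI, h⟩ := hN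
  set I' := insert x.1.1.1 (insert x.2.1.1 I) with hI'
  have hc : I'.card ≤ N + 2 := by
    have h1 := card_insert_le x.1.1.1 (insert x.2.1.1 I)
    have h2 := card_insert_le x.2.1.1 I
    rw [hI']
    omega
  have hj : ∀ j, j ∉ I' → x.1.1.1 ≠ j ∧ x.2.1.1 ≠ j ∧ Fr e j := by
    intro j hj
    rw [hI', mem_insert, mem_insert] at hj
    push Not at hj
    exact ⟨Ne.symm hj.1, Ne.symm hj.2.1, h j hj.2.2⟩
  refine ⟨⟨I', hc, ?_⟩, ⟨I', hc, ?_⟩, ⟨I', hc, ?_⟩⟩
  · intro j hj'
    obtain ⟨h1, h2, h3, h4⟩ := hj j hj'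
    refine ⟨?_, ?_⟩
    · exact mul_mem (inv_mem (mul_mem (as_NoJ h1 L _) (inv_mem h3))) (as_NoJ h2 L _)
    · exact mul_mem (bs_NoJ h2 L _) (inv_mem (mul_mem (inv_mem h4) (bs_NoJ h1 L _)))
  · intro j hj'
    obtain ⟨h1, h2, h3, h4⟩ := hj j hj'
    refine ⟨?_, ?_⟩
    · exact mul_mem (mul_mem h3 (inv_mem (as_NoJ h1 L _))) (as_NoJ h1 L _)
    · exact mul_mem (mul_mem (inv_mem (as_NoJ h1 L _)) (gs_NoJ h2 L))
        (mul_mem (inv_mem (bs_NoJ h1 L _)) h4)
  · intro j hj'
    obtain ⟨h1, h2, h3, h4⟩ := hj j hj'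
    refine ⟨?_, ?_⟩
    · exact mul_mem (mul_mem (mul_mem h3 (inv_mem (as_NoJ h1 L _))) (gs_NoJ h2 L))
        (inv_mem (bs_NoJ h1 L _))
    · exact mul_mem (bs_NoJ h1 L _) (mul_mem (inv_mem (bs_NoJ h1 L _)) h4)

theorem FK2_sub {L J : ℕ} {e : E k} : FK2 k L J e ⊆ FK k L J e := by
  classical exact filter_subset _ _
theorem FK3_sub {L J : ℕ} {e : E k} : FK3 k L J e ⊆ FK k L J e := by
  classical exact filter_subset _ _

theorem vis_KK {L J N : ℕ} {f : E k →₀ ℝ} (hf : ∀ e ∈ f.support, Vis N e) :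
    ∀ e ∈ (KK k L J f).support, Vis (N + 2) e := by
  classical
  intro e he
  rw [KK, LinearMap.add_apply, LinearMap.add_apply] at he
  have h1 := Finsupp.support_add he
  rw [mem_union] at h1
  rcases h1 with h1 | h1
  · have h2 := Finsupp.support_add h1
    rw [mem_union] at h2
    rcases h2 with h2 | h2
    · obtain ⟨a, ha, q, hq, h⟩ := opr_support _ _ _ f h2
      rw [← h]; exact (vis_pi hq (hf a ha)).1
    · obtain ⟨a, ha, q, hq, h⟩ := opr_support _ _ _ f h2
      rw [← h]; exact (vis_pi (FK2_sub hq) (hf a ha)).2.1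
  · obtain ⟨a, ha, q, hq, h⟩ := opr_support _ _ _ f h1
    rw [← h]; exact (vis_pi (FK3_sub hq) (hf a ha)).2.2

theorem NN_ge {J N : ℕ} {e : E k} (h : Vis N e) : 2 * ((J : ℝ) - N - 1) ≤ NN J e := by
  classical
  obtain ⟨I, hI, h⟩ := h
  have h1 : (range J).card ≤ ((range J).filter (fun j => Fr e j)).card + I.card := by
    have h2 := card_filter_add_card_filter_not (s := range J) (fun j => Fr e j)
    have h3 : ((range J).filter (fun j => ¬ Fr e j)).card ≤ I.card := by
      apply card_le_card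
      intro j hj
      rw [mem_filter] at hj
      by_contra h4
      exact hj.2 (h j h4)
    omega
  rw [card_range] at h1
  have h4 : (J : ℝ) ≤ ((range J).filter (fun j => Fr e j)).card + N := by
    have : J ≤ ((range J).filter (fun j => Fr e j)).card + N := by omega
    exact_mod_cast this
  rw [NN, nf]
  linarith

theorem card_FT_le {p J : ℕ} (e : E k) : (FT k (k * p) J e).card ≤ 2 * J * p := by
  classical
  have h1 : FT k (k * p) J e ⊆
      (range J ×ˢ (univ : Finset Bool)) ×ˢ ((range (k * p)).filter (fun l => col k l = e.1)) := by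
    intro q hq
    rw [FT, mem_filter, mem_LI] at hq
    rw [mem_product, mem_product, mem_filter, mem_range, mem_range]
    exact ⟨⟨hq.1.1, mem_univ _⟩, hq.1.2, hq.2⟩
  have h2 : ((range (k * p)).filter (fun l => col k l = e.1)).card ≤ (range p).card := by
    apply card_le_card_of_injOn (fun l => l / k)
    · intro l hl
      have hl' := (mem_filter.1 (mem_coe.1 hl)).1
      rw [mem_range] at hl'
      simp only [coe_range, Set.mem_Iio]
      exact Nat.div_lt_of_lt_mul hl'
    · intro l hl l' hl' h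
      have g1 := (mem_filter.1 (mem_coe.1 hl)).2
      have g2 := (mem_filter.1 (mem_coe.1 hl')).2
      have g3 : l % k = l' % k := by
        have := g1.trans g2.symm
        simpa [col] using this
      simp only at h
      rw [← Nat.div_add_mod l k, ← Nat.div_add_mod l' k, h, g3]
  calc (FT k (k * p) J e).card ≤ _ := card_le_card h1
    _ = J * 2 * ((range (k * p)).filter (fun l => col k l = e.1)).card := by
        rw [card_product, card_product, card_range, card_univ, Fintype.card_bool]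
    _ ≤ J * 2 * p := by
        apply Nat.mul_le_mul_left
        rw [card_range] at h2; exact h2
    _ = 2 * J * p := by ring

theorem card_FY_le {p J : ℕ} (e : E k) : (FY k (k * p) J e).card ≤ 2 * J * p := by
  classical
  exact (card_le_card (filter_subset _ _)).trans (card_FT_le e)

theorem es_sq_real (σ : Sg) : (es σ : ℝ) ^ 2 = 1 := by
  rw [sq]; exact_mod_cast es_sq σ

/-- bound for `Y` -/
theorem nsq_opY {p J : ℕ} {s : ℝ} (hs : s ^ 2 * (2 * J) = 1) (f : E k →₀ ℝ) :
    nsq (opY k (k * p) J s f) ≤ p * nsq f := by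
  classical
  apply schur1
  · intro a _ q hq a' _ q' hq' h
    rw [FY, mem_filter, FT, mem_filter, mem_LI] at hq hq'
    obtain ⟨h1, h2⟩ := Prod.ext_iff.1 h
    obtain ⟨e1, e2, e3, e4⟩ := injY (k * p) hq.1.1.2 hq'.1.1.2 hq.2.1 hq'.2.1 h1 h2
    refine ⟨?_, Prod.ext e1 e2⟩
    refine Prod.ext ?_ (Prod.ext e3 e4)
    rw [← hq.1.2, ← hq'.1.2, e2]
  · intro a _
    have h1 : ∀ q ∈ FY k (k * p) J a, cT s a q ^ 2 = s ^ 2 := by
      intro q _
      rw [cT, mul_pow, es_sq_real, mul_one]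
    rw [sum_congr rfl h1, sum_const, nsmul_eq_mul]
    have h2 : ((FY k (k * p) J a).card : ℝ) ≤ 2 * J * p := by exact_mod_cast card_FY_le a
    calc ((FY k (k * p) J a).card : ℝ) * s ^ 2 ≤ (2 * J * p) * s ^ 2 :=
          mul_le_mul_of_nonneg_right h2 (sq_nonneg s)
      _ = (s ^ 2 * (2 * J)) * p := by ring
      _ = p := by rw [hs, one_mul]

theorem card_FSt {L J : ℕ} (hL : 0 < L) {e : E k} {j : ℕ} (hj : j < J) (hf : Fr e j) :
    ((FSt J e j).card : ℝ) = NN J e := by
  have h1 := card_FS (L := L) hj hf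
  rw [FS_eq, card_product, card_range] at h1
  push_cast at h1
  have hL0 : (L : ℝ) ≠ 0 := by positivity
  exact mul_right_cancel₀ hL0 h1

/-- number of pairs `(p, q)` with `q ∈ G p` -/
theorem card_FK_le {p J : ℕ} {e : E k} (H : Finset ((Sg × ℕ) × (Sg × ℕ)))
    (hH : H ⊆ FK k (k * p) J e) (B : ℝ) (hB0 : 0 ≤ B)
    (hB : ∀ q ∈ FY k (k * p) J e, (((H.filter (fun x => x.1 = q))).card : ℝ) ≤ B) :
    (H.card : ℝ) ≤ 2 * J * p * B := by
  classical
  have h1 : H.card = ∑ q ∈ FY k (k * p) J e, (H.filter (fun x => x.1 = q)).card := by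
    apply card_eq_sum_card_fiberwise
    intro x hx
    exact (mem_FK.1 (hH hx)).1
  rw [h1]
  push_cast
  calc ∑ q ∈ FY k (k * p) J e, ((H.filter (fun x => x.1 = q)).card : ℝ) ≤
      ∑ q ∈ FY k (k * p) J e, B := sum_le_sum hB
    _ = ((FY k (k * p) J e).card : ℝ) * B := by rw [sum_const, nsmul_eq_mul]
    _ ≤ 2 * J * p * B := by
      apply mul_le_mul_of_nonneg_right _ hB0
      exact_mod_cast card_FY_le e

/-- bound for `K₁` -/
theorem nsq_K1 {p J N : ℕ} (hp : 0 < p) (hJ : 5 * (N + 1) ≤ J) {f : E k →₀ ℝ}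
    (hf : ∀ e ∈ f.support, Vis N e) :
    nsq (K1 k (k * p) J f) ≤ 5 / (4 * k) * nsq f := by
  classical
  have hk : 0 < k := Nat.pos_of_ne_zero (NeZero.ne k)
  have hL : 0 < k * p := Nat.mul_pos hk hp
  apply schur1
  · intro a _ x hx a' _ x' hx' h
    obtain ⟨g1, g2, g3, g4, g5, g6, g7, g8, g9, g10⟩ := FK_facts hx
    obtain ⟨g1', g2', g3', g4', g5', g6', g7', g8', g9', g10'⟩ := FK_facts hx'
    have h1 := (Prod.ext_iff.1 (Prod.ext_iff.1 h).2).1
    have h2 := (Prod.ext_iff.1 (Prod.ext_iff.1 h).2).2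
    obtain ⟨e1, e2, e3, e4, e5, e6⟩ := inj1 (k * p) g1 g2 g1' g2' g6 g6' g7 g9 g7' g9' h1 h2
    refine ⟨?_, ?_⟩
    · refine Prod.ext ?_ (Prod.ext e5 e6)
      rw [← g5, ← g5', e2]
    · exact Prod.ext (Prod.ext e1 e2) (Prod.ext e3 e4)
  · intro a ha
    have hN : 8 / 5 * (J : ℝ) ≤ NN J a := by
      have h1 := NN_ge (J := J) (hf a ha)
      have h2 : (5 * ((N : ℝ) + 1)) ≤ J := by exact_mod_cast hJ
      linarith
    have hJ0 : (0 : ℝ) < J := by
      have : 0 < J := by omega
      exact_mod_cast this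
    have hN0 : 0 < NN J a := by linarith
    have hL0 : (0 : ℝ) < ((k * p : ℕ) : ℝ) := by exact_mod_cast hL
    have h1 : ∀ x ∈ FK k (k * p) J a, c1 (k * p) J a x ^ 2 = 1 / (NN J a * ((k * p : ℕ) : ℝ)) ^ 2 := by
      intro x _
      rw [c1, div_pow, neg_sq, mul_pow, es_sq_real, es_sq_real, one_mul]
    rw [sum_congr rfl h1, sum_const, nsmul_eq_mul]
    have h2 : ((FK k (k * p) J a).card : ℝ) ≤ 2 * J * p * (NN J a * ((k * p : ℕ) : ℝ)) := by
      apply card_FK_le _ subset_rfl _ (by positivity)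
      intro q hq
      have hq' := hq
      rw [FY, mem_filter, FT, mem_filter, mem_LI] at hq'
      rw [← card_FS hq'.1.1.1 hq'.2]
      norm_cast
      apply card_le_card_of_injOn (fun x => x.2)
      · intro x hx
        have hx' := mem_filter.1 (mem_coe.1 hx)
        have := (mem_FK.1 hx'.1).2
        rw [hx'.2] at this
        exact mem_coe.2 this
      · intro x hx y hy h
        have hx' := (mem_filter.1 (mem_coe.1 hx)).2
        have hy' := (mem_filter.1 (mem_coe.1 hy)).2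
        exact Prod.ext (hx'.trans hy'.symm) h
    have hkp : (((k * p : ℕ) : ℝ)) = k * p := by push_cast; ring
    calc ((FK k (k * p) J a).card : ℝ) * (1 / (NN J a * ((k * p : ℕ) : ℝ)) ^ 2) ≤
        2 * J * p * (NN J a * ((k * p : ℕ) : ℝ)) * (1 / (NN J a * ((k * p : ℕ) : ℝ)) ^ 2) :=
          mul_le_mul_of_nonneg_right h2 (by positivity)
      _ = 2 * J * p / (NN J a * ((k * p : ℕ) : ℝ)) := by
          field_simp
      _ ≤ 2 * J * p / (8 / 5 * J * ((k * p : ℕ) : ℝ)) := by
          apply div_le_div_of_nonneg_left (by positivity) (by positivity)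
          exact mul_le_mul_of_nonneg_right hN hL0.le
      _ = 5 / (4 * k) := by
          rw [hkp]
          have hp0 : (p : ℝ) ≠ 0 := by positivity
          have hk0 : (k : ℝ) ≠ 0 := by positivity
          field_simp
          norm_num

/-- common part of the bounds for `K₂`, `K₃` -/
theorem sum_c2_le {p J N : ℕ} (hL : 16 ≤ k * p) (hJ : 5 * (N + 1) ≤ J)
    {a : E k} (ha : Vis N a) (H : Finset ((Sg × ℕ) × (Sg × ℕ)))
    (hH : H ⊆ FK k (k * p) J a) (hne : ∀ x ∈ H, x.2.2 ≠ x.1.2) :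
    ∑ x ∈ H, c2 (k * p) J a x ^ 2 ≤ 4 / (3 * k) := by
  classical
  have hk : 0 < k := Nat.pos_of_ne_zero (NeZero.ne k)
  have hN : 8 / 5 * (J : ℝ) ≤ NN J a := by
    have h1 := NN_ge (J := J) ha
    have h2 : (5 * ((N : ℝ) + 1)) ≤ J := by exact_mod_cast hJ
    linarith
  have hJ0 : (0 : ℝ) < J := by
    have : 0 < J := by omega
    exact_mod_cast this
  have hN0 : 0 < NN J a := by linarith
  have hL16 : (16 : ℝ) ≤ ((k * p : ℕ) : ℝ) := by exact_mod_cast hL
  have hL1 : (0 : ℝ) < ((k * p : ℕ) : ℝ) - 1 := by linarith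
  have h1 : ∀ x ∈ H, c2 (k * p) J a x ^ 2 = 1 / (NN J a * (((k * p : ℕ) : ℝ) - 1)) ^ 2 := by
    intro x _
    rw [c2, div_pow, neg_sq, one_pow]
  rw [sum_congr rfl h1, sum_const, nsmul_eq_mul]
  have h2 : (H.card : ℝ) ≤ 2 * J * p * (NN J a * (((k * p : ℕ) : ℝ) - 1)) := by
    apply card_FK_le _ hH _ (by positivity)
    intro q hq
    have hq' := hq
    rw [FY, mem_filter, FT, mem_filter, mem_LI] at hq'
    have h3 : ((H.filter (fun x => x.1 = q)).card) ≤
        (FSt J a q.1.1 ×ˢ ((range (k * p)).erase q.2)).card := by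
      apply card_le_card_of_injOn (fun x => x.2)
      · intro x hx
        have hx' := mem_filter.1 (mem_coe.1 hx)
        have h4 := (mem_FK.1 (hH hx'.1)).2
        rw [hx'.2, FS_eq, mem_product] at h4
        apply mem_coe.2
        rw [mem_product, mem_erase]
        refine ⟨h4.1, ?_, h4.2⟩
        have := hne x hx'.1
        rwa [hx'.2] at this
      · intro x hx y hy h
        have hx' := (mem_filter.1 (mem_coe.1 hx)).2
        have hy' := (mem_filter.1 (mem_coe.1 hy)).2
        exact Prod.ext (hx'.trans hy'.symm) h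
    have h4 : ((FSt J a q.1.1 ×ˢ ((range (k * p)).erase q.2)).card : ℝ) =
        NN J a * (((k * p : ℕ) : ℝ) - 1) := by
      rw [card_product, card_erase_of_mem (mem_range.2 hq'.1.1.2), card_range]
      rw [Nat.cast_mul, card_FSt (L := k * p) (by omega) hq'.1.1.1 hq'.2,
        Nat.cast_sub (by omega), Nat.cast_one]
    rw [← h4]
    exact_mod_cast h3
  have hkp : (((k * p : ℕ) : ℝ)) = k * p := by push_cast; ring
  have hk0 : (0 : ℝ) < k := by exact_mod_cast hk
  calc (H.card : ℝ) * (1 / (NN J a * (((k * p : ℕ) : ℝ) - 1)) ^ 2) ≤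
      2 * J * p * (NN J a * (((k * p : ℕ) : ℝ) - 1)) *
        (1 / (NN J a * (((k * p : ℕ) : ℝ) - 1)) ^ 2) :=
        mul_le_mul_of_nonneg_right h2 (by positivity)
    _ = 2 * J * p / (NN J a * (((k * p : ℕ) : ℝ) - 1)) := by
        have := hL1.ne'
        field_simp
    _ ≤ 2 * J * p / (8 / 5 * J * (15 / 16 * ((k * p : ℕ) : ℝ))) := by
        apply div_le_div_of_nonneg_left (by positivity) (by positivity)
        apply mul_le_mul hN (by linarith) (by positivity) hN0.le
    _ = 4 / (3 * k) := by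
        rw [hkp]
        have hp0 : (p : ℝ) ≠ 0 := by
          intro h
          rw [hkp, h, mul_zero] at hL16
          linarith
        field_simp
        norm_num

theorem nsq_K2 {p J N : ℕ} (hL : 16 ≤ k * p) (hJ : 5 * (N + 1) ≤ J) {f : E k →₀ ℝ}
    (hf : ∀ e ∈ f.support, Vis N e) :
    nsq (K2 k (k * p) J f) ≤ 4 / (3 * k) * nsq f := by
  classical
  apply schur1
  · intro a _ x hx a' _ x' hx' h
    rw [FK2, mem_filter] at hx hx'
    obtain ⟨g1, g2, g3, g4, g5, g6, g7, g8, g9, g10⟩ := FK_facts hx.1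
    obtain ⟨g1', g2', g3', g4', g5', g6', g7', g8', g9', g10'⟩ := FK_facts hx'.1
    have h1 := (Prod.ext_iff.1 (Prod.ext_iff.1 h).2).1
    have h2 := (Prod.ext_iff.1 (Prod.ext_iff.1 h).2).2
    obtain ⟨e1, e2, e3, e4, e5, e6⟩ := inj2 (k * p) g1 g2 g2' hx.2 hx'.2 g6 g6' g7 g8 g10
      g7' g8' g10' h1 h2
    refine ⟨?_, ?_⟩
    · refine Prod.ext ?_ (Prod.ext e5 e6)
      rw [← g5, ← g5', e2]
    · exact Prod.ext (Prod.ext e1 e2) (Prod.ext e3 e4)
  · intro a ha
    exact sum_c2_le hL hJ (hf a ha) _ FK2_sub (fun x hx => bef_ne (mem_filter.1 hx).2)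

theorem nsq_K3 {p J N : ℕ} (hL : 16 ≤ k * p) (hJ : 5 * (N + 1) ≤ J) {f : E k →₀ ℝ}
    (hf : ∀ e ∈ f.support, Vis N e) :
    nsq (K3 k (k * p) J f) ≤ 4 / (3 * k) * nsq f := by
  classical
  apply schur1
  · intro a _ x hx a' _ x' hx' h
    rw [FK3, mem_filter] at hx hx'
    obtain ⟨g1, g2, g3, g4, g5, g6, g7, g8, g9, g10⟩ := FK_facts hx.1
    obtain ⟨g1', g2', g3', g4', g5', g6', g7', g8', g9', g10'⟩ := FK_facts hx'.1
    have h1 := (Prod.ext_iff.1 (Prod.ext_iff.1 h).2).1
    have h2 := (Prod.ext_iff.1 (Prod.ext_iff.1 h).2).2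
    obtain ⟨e1, e2, e3, e4, e5, e6⟩ := inj3 (k * p) g1 g1' hx.2 hx'.2 g6 g6' g7 g9 g8
      g7' g9' g8' h1 h2
    refine ⟨?_, ?_⟩
    · refine Prod.ext ?_ (Prod.ext e5 e6)
      rw [← g5, ← g5', e2]
    · exact Prod.ext (Prod.ext e1 e2) (Prod.ext e3 e4)
  · intro a ha
    exact sum_c2_le hL hJ (hf a ha) _ FK3_sub (fun x hx => bef_ne (mem_filter.1 hx).2)

/-- bound for `R` -/
theorem nsq_opR {L J N : ℕ} (s : ℝ) {f : E k →₀ ℝ} (hf : ∀ e ∈ f.support, Vis N e) :
    nsq (opR k L J s f) ≤ (2 * N * L) * ((2 * N * L) * s ^ 2) * nsq f := by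
  classical
  have hcard : ∀ I : Finset ℕ, I.card ≤ N →
      ((((I ×ˢ (univ : Finset Bool)) ×ˢ range L).card : ℕ) : ℝ) ≤ 2 * N * L := by
    intro I hI
    rw [card_product, card_product, card_range, card_univ, Fintype.card_bool]
    have : I.card * 2 * L ≤ 2 * N * L := by
      calc I.card * 2 * L ≤ N * 2 * L := by gcongr
        _ = 2 * N * L := by ring
    exact_mod_cast this
  have hmem : ∀ e : E k, ∀ I : Finset ℕ, (∀ j, j ∉ I → Fr e j) → ∀ q ∈ FR k L J e,
      q ∈ (I ×ˢ (univ : Finset Bool)) ×ˢ range L := by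
    intro e I hI q hq
    rw [FR, mem_filter, FT, mem_filter, mem_LI] at hq
    rw [mem_product, mem_product, mem_range]
    refine ⟨⟨?_, mem_univ _⟩, hq.1.1.2⟩
    by_contra h
    exact hq.2.2 (hI _ h)
  apply schur
  · positivity
  · intro b
    rcases (((f.support.sigma (FR k L J)).filter (fun p => out k L p.1 p.2 = b))).eq_empty_or_nonempty
      with h | ⟨⟨e0, p0⟩, h0⟩
    · rw [h]; simp only [card_empty, Nat.cast_zero]; positivity
    · rw [mem_filter, mem_sigma] at h0
      obtain ⟨I, hI, hI'⟩ := hf e0 h0.1.1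
      refine le_trans ?_ (hcard I hI)
      norm_cast
      apply card_le_card_of_injOn (fun x => x.2)
      · rintro ⟨e, q⟩ hx
        have hx' := mem_filter.1 (mem_coe.1 hx)
        rw [mem_sigma] at hx'
        have hq := hx'.1.2
        simp only at hq
        rw [FR, mem_filter, FT, mem_filter, mem_LI] at hq
        apply mem_coe.2
        rw [mem_product, mem_product, mem_range]
        refine ⟨⟨?_, mem_univ _⟩, hq.1.1.2⟩
        simp only
        by_contra hj
        apply hq.2.1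
        have hb : out k L e q = out k L e0 p0 := hx'.2.trans h0.2.symm
        unfold Inv
        rw [hb]
        have hp0 := hmem e0 I hI' p0 h0.1.2
        rw [mem_product, mem_product] at hp0
        have hne : p0.1.1 ≠ q.1.1 := by
          intro h; rw [h] at hp0; exact hj hp0.1.1
        have hfr := hI' _ hj
        exact ⟨mul_mem (as_NoJ hne L _) (inv_mem hfr.1), mul_mem (inv_mem hfr.2) (bs_NoJ hne L _)⟩
      · rintro ⟨e, q⟩ hx ⟨e', q'⟩ hx' h
        simp only at h
        subst h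
        have h1 := mem_filter.1 (mem_coe.1 hx)
        have h2 := mem_filter.1 (mem_coe.1 hx')
        rw [mem_sigma] at h1 h2
        have hb : out k L e q = out k L e' q := h1.2.trans h2.2.symm
        have c1 : e.1 = e'.1 := by
          have g1 := h1.1.2
          have g2 := h2.1.2
          simp only at g1 g2
          rw [FR, mem_filter, FT, mem_filter] at g1 g2
          exact g1.1.2.symm.trans g2.1.2
        have c2 : e.2.1 = e'.2.1 := by
          have := (Prod.ext_iff.1 hb).1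
          exact inv_injective (mul_left_cancel this)
        have c3 : e.2.2 = e'.2.2 := by
          have := (Prod.ext_iff.1 hb).2
          exact inv_injective (mul_right_cancel this)
        have : e = e' := Prod.ext c1 (Prod.ext c2 c3)
        subst this
        rfl
  · intro e he
    obtain ⟨I, hI, hI'⟩ := hf e he
    have h1 : ∀ q ∈ FR k L J e, cT s e q ^ 2 = s ^ 2 := by
      intro q _
      rw [cT, mul_pow, es_sq_real, mul_one]
    rw [sum_congr rfl h1, sum_const, nsmul_eq_mul]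
    apply mul_le_mul_of_nonneg_right _ (sq_nonneg s)
    refine le_trans ?_ (hcard I hI)
    norm_cast
    exact card_le_card (hmem e I hI')

end

end Pool.Agent.H146FF
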